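import Mathlib

/-!
# The secret sharing scheme: vectors of shares and their types
-/

set_option autoImplicit false

namespace Pool.Agent.Helper1x.LA

open Finset Function

variable {I : Type} [Fintype I] [DecidableEq I] {Q : ℕ} [NeZero Q]

/-- the type of a vector of shares -/
def ty (n : ℕ) (b : I → Fin Q) : ℕ := (∑ i, (b i : ℕ)) % (n+1)

lemma ty_lt (n : ℕ) (b : I → Fin Q) : ty n b < n + 1 := Nat.mod_lt _ (Nat.succ_pos n)

/-- rotation of one share -/
def rot (i : I) (s : Fin Q) : (I → Fin Q) ≃ (I → Fin Q) where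
  toFun b := update b i (b i + s)
  invFun b := update b i (b i - s)
  left_inv b := by
    funext j
    by_cases h : j = i
    · subst h; simp
    · simp [update_of_ne h]
  right_inv b := by
    funext j
    by_cases h : j = i
    · subst h; simp
    · simp [update_of_ne h]

lemma sum_update_val (b : I → Fin Q) (i : I) (y : Fin Q) :
    ∑ j, (update b i y j : ℕ) + b i = ∑ j, (b j : ℕ) + y := by
  have e : (fun j => (update b i y j : ℕ)) = update (fun j => (b j : ℕ)) i (y : ℕ) := by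
    funext j
    by_cases h : j = i
    · subst h; simp
    · simp [update_of_ne h]
  have h1 : ∑ j, (update b i y j : ℕ) = ∑ j, update (fun j => (b j : ℕ)) i (y : ℕ) j := by
    rw [← e]
  rw [h1, Finset.sum_update_of_mem (Finset.mem_univ i)]
  have h2 : ∑ j, (b j : ℕ) = (b i : ℕ) + ∑ x ∈ univ \ {i}, (b x : ℕ) := by
    rw [← Finset.add_sum_erase _ _ (Finset.mem_univ i), Finset.sdiff_singleton_eq_erase]
  rw [h2]
  ring

lemma ty_rot {n : ℕ} (hQ : n + 1 ∣ Q) (i : I) (s : Fin Q) (b : I → Fin Q) :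
    ty n (rot i s b) = (ty n b + s) % (n+1) := by
  have h := sum_update_val b i (b i + s)
  have h1 : ((b i + s : Fin Q) : ℕ) = ((b i : ℕ) + s) % Q := Fin.val_add _ _
  have h2 : ((b i : ℕ) + s) % Q ≡ (b i : ℕ) + s [MOD n+1] := (Nat.mod_modEq _ Q).of_dvd hQ
  have h3 : ∑ j, (update b i (b i + s) j : ℕ) + b i ≡ (∑ j, (b j : ℕ) + s) + b i [MOD n+1] := by
    rw [h, h1]
    have := Nat.ModEq.add_left (∑ j, (b j : ℕ)) h2
    refine this.trans ?_
    rw [show ∑ j, (b j : ℕ) + ((b i : ℕ) + s) = ∑ j, (b j : ℕ) + s + b i by ring]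
  have h4 := Nat.ModEq.add_right_cancel' _ h3
  unfold ty
  change (∑ j, (update b i (b i + s) j : ℕ)) % (n+1) = _
  rw [Nat.mod_add_mod]
  exact h4

lemma sum_rot {n : ℕ} (hQ : n + 1 ∣ Q) (i : I) (s : Fin Q) {l : ℕ} (hl : l < n + 1)
    (g : (I → Fin Q) → ℝ) :
    ∑ b with ty n b = l, g (rot i s b) = ∑ b with ty n b = (l + s) % (n+1), g b := by
  refine Finset.sum_equiv (rot i s) ?_ ?_
  · intro b
    simp only [Finset.mem_filter, Finset.mem_univ, true_and]
    rw [ty_rot hQ]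
    constructor
    · intro h; rw [h]
    · intro h
      have h1 : ty n b ≡ l [MOD n+1] := Nat.ModEq.add_right_cancel' _ h
      exact Nat.ModEq.eq_of_lt_of_lt h1 (ty_lt n b) hl
  · intro b _; rfl

/-- number of share vectors of a given type -/
noncomputable def NN (I : Type) [Fintype I] (Q n : ℕ) : ℝ := (Q:ℝ)^(Fintype.card I) / (n+1)

lemma NN_pos (n : ℕ) : 0 < NN I Q n := by
  unfold NN
  have : (0:ℝ) < Q := by exact_mod_cast Nat.pos_of_ne_zero (NeZero.ne Q)
  positivity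

lemma card_ty [Nonempty I] {n : ℕ} (hQ : n + 1 ∣ Q) {l : ℕ} (hl : l < n + 1) :
    ∑ b : I → Fin Q with ty n b = l, (1:ℝ) = NN I Q n := by
  obtain ⟨i⟩ := ‹Nonempty I›
  have hQpos : 0 < Q := Nat.pos_of_ne_zero (NeZero.ne Q)
  have hle : n + 1 ≤ Q := Nat.le_of_dvd hQpos hQ
  have h1 : ∀ l < n + 1, ∑ b : I → Fin Q with ty n b = l, (1:ℝ) =
      ∑ b : I → Fin Q with ty n b = 0, (1:ℝ) := by
    intro l hl
    have := sum_rot (I := I) hQ i ⟨l, by omega⟩ (l := 0) (by omega) (fun _ => (1:ℝ))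
    simp only [zero_add, Nat.mod_eq_of_lt hl] at this
    exact this.symm
  have h2 : ∑ l ∈ range (n+1), ∑ b : I → Fin Q with ty n b = l, (1:ℝ) =
      ∑ b : I → Fin Q, (1:ℝ) := by
    refine Finset.sum_fiberwise_of_maps_to (s := (univ : Finset (I → Fin Q)))
      (t := range (n+1)) (g := ty n) ?_ (fun _ => (1:ℝ))
    intro b _
    exact Finset.mem_range.2 (ty_lt n b)
  rw [Finset.sum_congr rfl fun l hl => h1 l (Finset.mem_range.1 hl)] at h2
  rw [Finset.sum_const, Finset.card_range, nsmul_eq_mul] at h2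
  have h3 : ∑ b : I → Fin Q, (1:ℝ) = (Q:ℝ)^(Fintype.card I) := by
    simp
  rw [h3] at h2
  rw [h1 l hl]
  unfold NN
  rw [eq_div_iff (by positivity)]
  push_cast at h2
  linarith

lemma card_large (s : ℕ) : (univ.filter fun a : Fin Q => Q ≤ (a:ℕ) + s).card ≤ s := by
  have h : (univ.filter fun a : Fin Q => Q ≤ (a:ℕ) + s).card ≤ (range s).card := by
    refine Finset.card_le_card_of_injOn (fun a => Q - 1 - (a:ℕ)) ?_ ?_
    · intro a ha
      simp only [Finset.coe_filter, Finset.mem_univ, true_and, Set.mem_ofPred_eq] at ha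
      have := a.2
      simp only [Finset.coe_range, Set.mem_Iio]
      omega
    · intro a ha b hb hab
      have h1 := a.2
      have h2 := b.2
      simp only at hab
      apply Fin.ext
      omega
  simpa using h

lemma card_carry (i : I) (s : ℕ) :
    (Q:ℝ) * ∑ b : I → Fin Q, (if Q ≤ (b i : ℕ) + s then (1:ℝ) else 0) ≤
      s * (Q:ℝ)^(Fintype.card I) := by
  have h1 : (Q:ℝ) * ∑ b : I → Fin Q, (if Q ≤ (b i : ℕ) + s then (1:ℝ) else 0) =
      ∑ a : Fin Q, ∑ b : I → Fin Q, (if Q ≤ ((rot i a b) i : ℕ) + s then (1:ℝ) else 0) := by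
    have : ∀ a : Fin Q, ∑ b : I → Fin Q, (if Q ≤ ((rot i a b) i : ℕ) + s then (1:ℝ) else 0) =
        ∑ b : I → Fin Q, (if Q ≤ (b i : ℕ) + s then (1:ℝ) else 0) := by
      intro a
      exact Equiv.sum_comp (rot i a) (fun b => if Q ≤ (b i : ℕ) + s then (1:ℝ) else 0)
    rw [Finset.sum_congr rfl fun a _ => this a]
    simp
  rw [h1, Finset.sum_comm]
  have h2 : ∀ b : I → Fin Q, ∑ a : Fin Q, (if Q ≤ ((rot i a b) i : ℕ) + s then (1:ℝ) else 0) ≤ s := by
    intro b
    have h3 : ∑ a : Fin Q, (if Q ≤ ((rot i a b) i : ℕ) + s then (1:ℝ) else 0) =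
        ∑ a : Fin Q, (if Q ≤ ((b i + a : Fin Q) : ℕ) + s then (1:ℝ) else 0) := by
      refine Finset.sum_congr rfl fun a _ => ?_
      simp [rot]
    have h4 : ∑ a : Fin Q, (if Q ≤ ((b i + a : Fin Q) : ℕ) + s then (1:ℝ) else 0) =
        ∑ a : Fin Q, (if Q ≤ (a : ℕ) + s then (1:ℝ) else 0) :=
      Equiv.sum_comp (Equiv.addLeft (b i)) (fun a : Fin Q => if Q ≤ (a : ℕ) + s then (1:ℝ) else 0)
    rw [h3, h4, Finset.sum_boole]
    exact_mod_cast card_large s
  refine (Finset.sum_le_sum fun b _ => h2 b).trans ?_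
  simp [mul_comm]

/-- A function of the shares that is monotone in the share `i` has almost the same average over
each type. -/
lemma shift {n : ℕ} (hQ : n + 1 ∣ Q) (i : I) {l l' : ℕ} (hl : l < n + 1) (hl' : l' < n + 1)
    (g : (I → Fin Q) → ℝ) (hg0 : ∀ b, 0 ≤ g b) (hg1 : ∀ b, g b ≤ 1)
    (hmono : ∀ (b : I → Fin Q) (y : Fin Q), b i ≤ y → g b ≤ g (update b i y)) :
    (∑ b with ty n b = l, g b) / NN I Q n ≤
      (∑ b with ty n b = l', g b) / NN I Q n + (n+1)^2 / Q := by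
  have hQpos : 0 < Q := Nat.pos_of_ne_zero (NeZero.ne Q)
  have hle : n + 1 ≤ Q := Nat.le_of_dvd hQpos hQ
  obtain ⟨s, hs, hs2⟩ : ∃ s : ℕ, s < n + 1 ∧ (l + s) % (n+1) = l' := by
    refine ⟨(l' + (n + 1 - l)) % (n+1), Nat.mod_lt _ (Nat.succ_pos n), ?_⟩
    rw [Nat.add_mod_mod, show l + (l' + (n + 1 - l)) = l' + (n+1) by omega, Nat.add_mod_right,
      Nat.mod_eq_of_lt hl']
  have h1 := sum_rot (I := I) hQ i ⟨s, by omega⟩ hl g
  simp only [hs2] at h1
  have h2 : ∀ b : I → Fin Q, g b ≤ g (rot i ⟨s, by omega⟩ b) +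
      (if Q ≤ (b i : ℕ) + s then (1:ℝ) else 0) := by
    intro b
    by_cases hb : Q ≤ (b i : ℕ) + s
    · rw [if_pos hb]
      linarith [hg0 (rot i ⟨s, by omega⟩ b), hg1 b]
    · rw [if_neg hb, add_zero]
      refine hmono b _ ?_
      rw [Fin.le_def, Fin.val_add]
      simp only
      rw [Nat.mod_eq_of_lt (by omega)]
      omega
  have h3 : ∑ b with ty n b = l, g b ≤ ∑ b with ty n b = l', g b +
      ∑ b : I → Fin Q, (if Q ≤ (b i : ℕ) + s then (1:ℝ) else 0) := by
    rw [← h1]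
    refine (Finset.sum_le_sum fun b _ => h2 b).trans ?_
    rw [Finset.sum_add_distrib]
    refine add_le_add le_rfl ?_
    refine Finset.sum_le_sum_of_subset_of_nonneg (Finset.filter_subset _ _) ?_
    intro b _ _
    split_ifs <;> norm_num
  have hN : 0 < NN I Q n := NN_pos n
  have hQr : (0:ℝ) < Q := by exact_mod_cast hQpos
  have h4 := card_carry (Q := Q) i s
  have h5 : (∑ b : I → Fin Q, (if Q ≤ (b i : ℕ) + s then (1:ℝ) else 0)) / NN I Q n ≤
      (n+1)^2 / Q := by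
    rw [div_le_div_iff₀ hN hQr]
    have h6 : (s:ℝ) ≤ n + 1 := by exact_mod_cast hs.le
    have h7 : (0:ℝ) < (Q:ℝ)^(Fintype.card I) := by positivity
    have e : ((n:ℝ)+1)^2 * NN I Q n = (n+1) * (Q:ℝ)^(Fintype.card I) := by
      unfold NN
      field_simp
    rw [e]
    nlinarith
  calc (∑ b with ty n b = l, g b) / NN I Q n ≤ (∑ b with ty n b = l', g b +
      ∑ b : I → Fin Q, (if Q ≤ (b i : ℕ) + s then (1:ℝ) else 0)) / NN I Q n :=
        div_le_div_of_nonneg_right h3 hN.le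
    _ = (∑ b with ty n b = l', g b) / NN I Q n +
      (∑ b : I → Fin Q, (if Q ≤ (b i : ℕ) + s then (1:ℝ) else 0)) / NN I Q n := add_div _ _ _
    _ ≤ _ := by linarith

end Pool.Agent.Helper1x.LA
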