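import Mathlib

/-!
# Single-item auctions with correlated bidders and the `k`-lookahead mechanism

Definitions for the problem `MP_0f9109_lc`.
-/

set_option autoImplicit false

namespace Pool.Agent.Helper1x.LA

/-- A direct (randomized) mechanism for selling one item to the bidders in `ι`: for each vector of
reported values, the allocation probability and the expected payment of each bidder. -/
structure Mechanism (ι : Type) where
  alloc : (ι → ℝ) → ι → ℝ
  pay : (ι → ℝ) → ι → ℝ

/-- The mechanism is feasible (nonnegative allocation probabilities with sum at most one), truthful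
in expectation and individually rational, on all vectors of positive values. -/
structure Mechanism.Valid {ι : Type} [Fintype ι] [DecidableEq ι] (M : Mechanism ι) : Prop where
  alloc_nonneg : ∀ v : ι → ℝ, (∀ i, 0 < v i) → ∀ i, 0 ≤ M.alloc v i
  alloc_le : ∀ v : ι → ℝ, (∀ i, 0 < v i) → ∑ i, M.alloc v i ≤ 1
  truthful : ∀ v : ι → ℝ, (∀ i, 0 < v i) → ∀ i, ∀ b : ℝ, 0 < b →
    v i * M.alloc (Function.update v i b) i - M.pay (Function.update v i b) i ≤
      v i * M.alloc v i - M.pay v i
  ir : ∀ v : ι → ℝ, (∀ i, 0 < v i) → ∀ i, 0 ≤ v i * M.alloc v i - M.pay v i

/-- A finitely supported joint distribution of the values of `n` bidders; all values in the support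
are positive. The probability of `v` is `D.w v`. -/
structure ValDist (n : ℕ) where
  w : (Fin n → ℝ) →₀ ℝ
  nonneg : ∀ v, 0 ≤ w v
  total : (w.sum fun _ a => a) = 1
  pos : ∀ v ∈ w.support, ∀ i, 0 < v i

variable {n : ℕ}

/-- The expected revenue of the mechanism `M` when the values are drawn from `D`. -/
noncomputable def ValDist.revenue (D : ValDist n) (M : Mechanism (Fin n)) : ℝ :=
  D.w.sum fun v a => a * ∑ i, M.pay v i

/-- `OPT(D)`: the largest expected revenue of a truthful in expectation, individually rational
mechanism. -/
noncomputable def ValDist.OPT (D : ValDist n) : ℝ :=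
  sSup {r | ∃ M : Mechanism (Fin n), M.Valid ∧ r = D.revenue M}

open scoped Classical in
/-- The set `K` of the `k` highest bidders, ties broken by index: bidder `i` is in `K` if fewer than
`k` bidders `j` precede `i`, where `j` precedes `i` if `v j > v i`, or `v j = v i` and `j < i`. -/
noncomputable def top (k : ℕ) (v : Fin n → ℝ) : Finset (Fin n) :=
  Finset.univ.filter fun i =>
    (Finset.univ.filter fun j => v i < v j ∨ (v j = v i ∧ j < i)).card < k

/-- The values of the bidders outside `K`. -/
def outside (K : Finset (Fin n)) (v : Fin n → ℝ) : {j : Fin n // j ∉ K} → ℝ := fun j => v j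

/-- The values of the bidders in `K`. -/
def inside (K : Finset (Fin n)) (v : Fin n → ℝ) : {i : Fin n // i ∈ K} → ℝ := fun i => v i

/-- The event on which we condition in the definition of `D_K`: the bidders outside `K` have the
values `o`, and each bidder in `K` has at least the value of each bidder outside `K`. -/
def Event (K : Finset (Fin n)) (o : {j : Fin n // j ∉ K} → ℝ) (v : Fin n → ℝ) : Prop :=
  outside K v = o ∧ ∀ i ∈ K, ∀ j, j ∉ K → v j ≤ v i

open scoped Classical in
/-- The expected revenue of a mechanism `M` for the bidders in `K` under the distribution `D_K`, the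
conditional distribution of the values of the bidders in `K` given the event `Event K o`. -/
noncomputable def ValDist.condRevenue (D : ValDist n) (K : Finset (Fin n))
    (o : {j : Fin n // j ∉ K} → ℝ) (M : Mechanism {i : Fin n // i ∈ K}) : ℝ :=
  ((D.w.filter (Event K o)).sum fun v a => a * ∑ i, M.pay (inside K v) i) /
    (D.w.filter (Event K o)).sum fun _ a => a

/-- `M` is a revenue-maximizing truthful in expectation, individually rational mechanism for the
bidders in `K` under the conditional distribution `D_K`. -/
def ValDist.IsOptimal (D : ValDist n) (K : Finset (Fin n))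
    (o : {j : Fin n // j ∉ K} → ℝ) (M : Mechanism {i : Fin n // i ∈ K}) : Prop :=
  M.Valid ∧ ∀ M' : Mechanism {i : Fin n // i ∈ K}, M'.Valid →
    D.condRevenue K o M' ≤ D.condRevenue K o M

/-- A family of mechanisms, one for each set `K` of bidders and each vector `o` of values of the
bidders outside `K`. -/
abbrev Family (n : ℕ) : Type :=
  (K : Finset (Fin n)) → ({j : Fin n // j ∉ K} → ℝ) → Mechanism {i : Fin n // i ∈ K}

/-- `A` describes a `k`-lookahead mechanism for `D`: if the value vector is `v` in the support
of `D` and `K` is the set of the `k` highest bidders, then the bidders in `K` are served by the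
revenue-maximizing mechanism `A K (outside K v)` for `D_K`, and the bidders outside `K` receive
nothing. -/
def IsLookahead (k : ℕ) (D : ValDist n) (A : Family n) : Prop :=
  ∀ v ∈ D.w.support, D.IsOptimal (top k v) (outside (top k v) v) (A (top k v) (outside (top k v) v))

/-- The expected revenue of the `k`-lookahead mechanism described by `A` under `D`. -/
noncomputable def lookRevenue (k : ℕ) (D : ValDist n) (A : Family n) : ℝ :=
  D.w.sum fun v a =>
    a * ∑ i, (A (top k v) (outside (top k v) v)).pay (inside (top k v) v) i

/-- The ratios `rev_k(D) / OPT(D)` for all numbers `n` of bidders, all distributions `D` with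
`OPT(D) > 0` and all `k`-lookahead mechanisms for `D`. -/
def ratios (k : ℕ) : Set ℝ :=
  {x | ∃ (n : ℕ) (D : ValDist n) (A : Family n), IsLookahead k D A ∧ 0 < D.OPT ∧
    x = lookRevenue k D A / D.OPT}

/-- The approximation ratio `ρ_k` of the `k`-lookahead mechanism. -/
noncomputable def rho (k : ℕ) : ℝ := sInf (ratios k)

end Pool.Agent.Helper1x.LA
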