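import Mathlib
import Pool.Agent.Helper1x.LA.Defs

/-!
# Existence of optimal mechanisms
-/

set_option autoImplicit false

namespace Pool.Agent.Helper1x.LA

open Function

variable {ι : Type} [Fintype ι] [DecidableEq ι]

lemma update_pos {v : ι → ℝ} (hv : ∀ i, 0 < v i) (i : ι) {b : ℝ} (hb : 0 < b) :
    ∀ j, 0 < update v i b j := by
  intro j
  by_cases h : j = i
  · subst h; simpa using hb
  · rw [update_of_ne h]; exact hv j

/-- the utilities of bidder `i` with the values of the others fixed -/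
def utils (M : Mechanism ι) (v : ι → ℝ) (i : ι) : Set ℝ :=
  {u | ∃ z : ℝ, 0 < z ∧ u = z * M.alloc (update v i z) i - M.pay (update v i z) i}

lemma utils_update (M : Mechanism ι) (v : ι → ℝ) (i : ι) (b : ℝ) :
    utils M (update v i b) i = utils M v i := by
  unfold utils
  simp only [update_idem]

lemma utils_nonneg {M : Mechanism ι} (hM : M.Valid) {v : ι → ℝ} (hv : ∀ i, 0 < v i) (i : ι) :
    ∀ u ∈ utils M v i, 0 ≤ u := by
  rintro u ⟨z, hz, rfl⟩
  have := hM.ir (update v i z) (update_pos hv i hz) i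
  simpa using this

lemma utils_mem (M : Mechanism ι) {v : ι → ℝ} (hv : ∀ i, 0 < v i) (i : ι) :
    v i * M.alloc v i - M.pay v i ∈ utils M v i := by
  refine ⟨v i, hv i, ?_⟩
  rw [update_eq_self]

lemma utils_ge {M : Mechanism ι} (hM : M.Valid) {v : ι → ℝ} (hv : ∀ i, 0 < v i) (i : ι) :
    ∀ u ∈ utils M v i, - M.pay v i ≤ u := by
  rintro u ⟨z, hz, rfl⟩
  have h := hM.truthful (update v i z) (update_pos hv i hz) i (v i) (hv i)
  rw [update_idem, update_eq_self] at h
  simp only [update_self] at h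
  have h2 := hM.alloc_nonneg v hv i
  have h3 : 0 ≤ z * M.alloc v i := mul_nonneg hz.le h2
  linarith

open scoped Classical in
/-- the normalized mechanism -/
noncomputable def normalize (M : Mechanism ι) : Mechanism ι where
  alloc v i := if ∀ j, 0 < v j then M.alloc v i else 0
  pay v i := if ∀ j, 0 < v j then M.pay v i + sInf (utils M v i) else 0

lemma alloc_le_one {M : Mechanism ι} (hM : M.Valid) {v : ι → ℝ} (hv : ∀ i, 0 < v i) (i : ι) :
    M.alloc v i ≤ 1 := by
  refine le_trans ?_ (hM.alloc_le v hv)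
  exact Finset.single_le_sum (f := fun i => M.alloc v i) (fun j _ => hM.alloc_nonneg v hv j)
    (Finset.mem_univ i)

lemma normalize_valid {M : Mechanism ι} (hM : M.Valid) : (normalize M).Valid where
  alloc_nonneg v hv i := by
    simp only [normalize, if_pos hv]; exact hM.alloc_nonneg v hv i
  alloc_le v hv := by
    simp only [normalize, if_pos hv]; exact hM.alloc_le v hv
  truthful v hv i b hb := by
    have hv' := update_pos hv i hb
    simp only [normalize, if_pos hv, if_pos hv', utils_update]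
    have := hM.truthful v hv i b hb
    linarith
  ir v hv i := by
    simp only [normalize, if_pos hv]
    have h1 : sInf (utils M v i) ≤ v i * M.alloc v i - M.pay v i :=
      csInf_le ⟨0, utils_nonneg hM hv i⟩ (utils_mem M hv i)
    linarith

lemma normalize_pay_ge {M : Mechanism ι} (hM : M.Valid) {v : ι → ℝ} (hv : ∀ i, 0 < v i) (i : ι) :
    M.pay v i ≤ (normalize M).pay v i := by
  simp only [normalize, if_pos hv]
  have := le_csInf ⟨_, utils_mem M hv i⟩ (utils_nonneg hM hv i)
  linarith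

lemma normalize_pay_nonneg {M : Mechanism ι} (hM : M.Valid) (v : ι → ℝ) (i : ι) :
    0 ≤ (normalize M).pay v i := by
  by_cases hv : ∀ j, 0 < v j
  · simp only [normalize, if_pos hv]
    have := le_csInf ⟨_, utils_mem M hv i⟩ (utils_ge hM hv i)
    linarith
  · simp only [normalize, if_neg hv]; exact le_rfl

lemma pay_le {M : Mechanism ι} (hM : M.Valid) {v : ι → ℝ} (hv : ∀ i, 0 < v i) (i : ι) :
    M.pay v i ≤ v i * M.alloc v i := by
  have := hM.ir v hv i
  linarith

lemma pay_le_val {M : Mechanism ι} (hM : M.Valid) {v : ι → ℝ} (hv : ∀ i, 0 < v i) (i : ι) :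
    M.pay v i ≤ v i := by
  have h1 := pay_le hM hv i
  have h2 := alloc_le_one hM hv i
  have h3 := mul_le_mul_of_nonneg_left h2 (hv i).le
  linarith

lemma normalize_pay_le {M : Mechanism ι} (hM : M.Valid) (v : ι → ℝ) (i : ι) :
    (normalize M).pay v i ≤ |v i| := by
  by_cases hv : ∀ j, 0 < v j
  · exact (pay_le_val (normalize_valid hM) hv i).trans (le_abs_self _)
  · simp only [normalize, if_neg hv]; exact abs_nonneg _

lemma normalize_alloc_mem {M : Mechanism ι} (hM : M.Valid) (v : ι → ℝ) (i : ι) :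
    (normalize M).alloc v i ∈ Set.Icc (0:ℝ) 1 := by
  by_cases hv : ∀ j, 0 < v j
  · exact ⟨(normalize_valid hM).alloc_nonneg v hv i, alloc_le_one (normalize_valid hM) hv i⟩
  · simp only [normalize, if_neg hv]; simp

/-- the zero mechanism -/
def zeroMech (ι : Type) : Mechanism ι := ⟨fun _ _ => 0, fun _ _ => 0⟩

lemma zeroMech_valid : (zeroMech ι).Valid where
  alloc_nonneg v hv i := by simp [zeroMech]
  alloc_le v hv := by simp [zeroMech]
  truthful v hv i b hb := by simp [zeroMech]
  ir v hv i := by simp [zeroMech]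

lemma isClosed_valid : IsClosed {q : ((ι → ℝ) → ι → ℝ) × ((ι → ℝ) → ι → ℝ) |
    (Mechanism.mk q.1 q.2).Valid} := by
  have hA : ∀ (v : ι → ℝ) (i : ι), Continuous
      (fun q : ((ι → ℝ) → ι → ℝ) × ((ι → ℝ) → ι → ℝ) => q.1 v i) := fun v i =>
    (continuous_apply i).comp ((continuous_apply v).comp continuous_fst)
  have hP : ∀ (v : ι → ℝ) (i : ι), Continuous
      (fun q : ((ι → ℝ) → ι → ℝ) × ((ι → ℝ) → ι → ℝ) => q.2 v i) := fun v i =>
    (continuous_apply i).comp ((continuous_apply v).comp continuous_snd)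
  have e : {q : ((ι → ℝ) → ι → ℝ) × ((ι → ℝ) → ι → ℝ) | (Mechanism.mk q.1 q.2).Valid} =
      {q | ∀ v : ι → ℝ, (∀ i, 0 < v i) → ∀ i, 0 ≤ q.1 v i} ∩
      {q | ∀ v : ι → ℝ, (∀ i, 0 < v i) → ∑ i, q.1 v i ≤ 1} ∩
      {q | ∀ v : ι → ℝ, (∀ i, 0 < v i) → ∀ i, ∀ b : ℝ, 0 < b →
        v i * q.1 (update v i b) i - q.2 (update v i b) i ≤ v i * q.1 v i - q.2 v i} ∩
      {q | ∀ v : ι → ℝ, (∀ i, 0 < v i) → ∀ i, 0 ≤ v i * q.1 v i - q.2 v i} := by
    ext q
    constructor
    · intro h
      exact ⟨⟨⟨h.alloc_nonneg, h.alloc_le⟩, h.truthful⟩, h.ir⟩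
    · rintro ⟨⟨⟨h1, h2⟩, h3⟩, h4⟩
      exact ⟨h1, h2, h3, h4⟩
  rw [e]
  refine IsClosed.inter (IsClosed.inter (IsClosed.inter ?_ ?_) ?_) ?_
  · simp only [Set.setOf_forall]
    refine isClosed_iInter fun v => isClosed_iInter fun hv => isClosed_iInter fun i => ?_
    exact isClosed_le continuous_const (hA v i)
  · simp only [Set.setOf_forall]
    refine isClosed_iInter fun v => isClosed_iInter fun hv => ?_
    exact isClosed_le (continuous_finset_sum _ fun i _ => hA v i) continuous_const
  · simp only [Set.setOf_forall]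
    refine isClosed_iInter fun v => isClosed_iInter fun hv => isClosed_iInter fun i =>
      isClosed_iInter fun b => isClosed_iInter fun hb => ?_
    exact isClosed_le ((continuous_const.mul (hA _ i)).sub (hP _ i))
      ((continuous_const.mul (hA _ i)).sub (hP _ i))
  · simp only [Set.setOf_forall]
    refine isClosed_iInter fun v => isClosed_iInter fun hv => isClosed_iInter fun i => ?_
    exact isClosed_le continuous_const ((continuous_const.mul (hA _ i)).sub (hP _ i))

/-- Optimal mechanisms exist for finitely supported nonnegative weights. -/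
theorem exists_optimal {α : Type} (T : Finset α) (a : α → ℝ) (ha : ∀ s ∈ T, 0 ≤ a s)
    (x : α → ι → ℝ) (hx : ∀ s ∈ T, ∀ i, 0 < x s i) :
    ∃ M : Mechanism ι, M.Valid ∧ ∀ M' : Mechanism ι, M'.Valid →
      ∑ s ∈ T, a s * ∑ i, M'.pay (x s) i ≤ ∑ s ∈ T, a s * ∑ i, M.pay (x s) i := by
  classical
  set C : Set (((ι → ℝ) → ι → ℝ) × ((ι → ℝ) → ι → ℝ)) :=
    (Set.pi Set.univ fun _ => Set.pi Set.univ fun _ => Set.Icc (0:ℝ) 1) ×ˢ
    (Set.pi Set.univ fun v => Set.pi Set.univ fun i => Set.Icc (0:ℝ) |v i|) with hC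
  have hCc : IsCompact C := by
    refine IsCompact.prod ?_ ?_
    · exact isCompact_univ_pi fun v => isCompact_univ_pi fun i => isCompact_Icc
    · exact isCompact_univ_pi fun v => isCompact_univ_pi fun i => isCompact_Icc
  have hcomp : IsCompact (C ∩ {q | (Mechanism.mk q.1 q.2).Valid}) :=
    hCc.inter_right isClosed_valid
  have hmem : ∀ M : Mechanism ι, M.Valid →
      ((normalize M).alloc, (normalize M).pay) ∈ C ∩ {q | (Mechanism.mk q.1 q.2).Valid} := by
    intro M hM
    refine ⟨⟨?_, ?_⟩, ?_⟩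
    · intro v _ i _
      exact normalize_alloc_mem hM v i
    · intro v _ i _
      exact ⟨normalize_pay_nonneg hM v i, normalize_pay_le hM v i⟩
    · exact normalize_valid hM
  have hne : (C ∩ {q | (Mechanism.mk q.1 q.2).Valid}).Nonempty :=
    ⟨_, hmem _ zeroMech_valid⟩
  have hcont : Continuous (fun q : ((ι → ℝ) → ι → ℝ) × ((ι → ℝ) → ι → ℝ) =>
      ∑ s ∈ T, a s * ∑ i, q.2 (x s) i) := by
    refine continuous_finset_sum _ fun s _ => continuous_const.mul ?_
    refine continuous_finset_sum _ fun i _ => ?_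
    exact (continuous_apply i).comp ((continuous_apply (x s)).comp continuous_snd)
  obtain ⟨q, hq, hmax⟩ := hcomp.exists_isMaxOn hne hcont.continuousOn
  refine ⟨⟨q.1, q.2⟩, hq.2, fun M' hM' => ?_⟩
  have h1 := hmax (hmem M' hM')
  refine le_trans ?_ h1
  refine Finset.sum_le_sum fun s hs => mul_le_mul_of_nonneg_left ?_ (ha s hs)
  exact Finset.sum_le_sum fun i _ => normalize_pay_ge hM' (hx s hs) i

end Pool.Agent.Helper1x.LA
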