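import Mathlib

/-!
# The weights of the hard distribution
-/

set_option autoImplicit false

namespace Pool.Agent.Helper1x.LA

open Finset

/-- the functional `G`: average over the levels `j ≤ l` -/
def G (u : ℕ → ℝ) (h : ℕ → ℝ) (l : ℕ) : ℝ :=
  ∑ j ∈ range l, (u (j+1) - u j) * h j + (1 - u l) * h l

/-- weight of the level `j` for the type `l` -/
noncomputable def gw (u : ℕ → ℝ) (l j : ℕ) : ℝ :=
  if j < l then u (j+1) - u j else if j = l then 1 - u l else 0

/-- weight of the type `l` -/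
noncomputable def rw' (u : ℕ → ℝ) (c : ℝ) (n l : ℕ) : ℝ :=
  if l < n then c * (1 / u l - 1 / u (l+1)) else c / u l

lemma sum_gw (u h : ℕ → ℝ) {l n : ℕ} (hl : l ≤ n) :
    ∑ j ∈ range (n+1), gw u l j * h j = G u h l := by
  have h1 : ∑ j ∈ range (n+1), gw u l j * h j = ∑ j ∈ range (l+1), gw u l j * h j := by
    refine (Finset.sum_subset (Finset.range_subset_range.2 (by omega)) ?_).symm
    intro j _ hj
    rw [Finset.mem_range] at hj
    unfold gw
    rw [if_neg (by omega), if_neg (by omega), zero_mul]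
  rw [h1, Finset.sum_range_succ]
  unfold G
  congr 1
  · refine Finset.sum_congr rfl fun j hj => ?_
    rw [Finset.mem_range] at hj
    unfold gw
    rw [if_pos hj]
  · unfold gw
    rw [if_neg (by omega), if_pos rfl]

lemma G_succ (u h : ℕ → ℝ) (l : ℕ) : G u h (l+1) = G u h l + (1 - u (l+1)) * (h (l+1) - h l) := by
  unfold G
  rw [Finset.sum_range_succ]
  ring

lemma G_zero (u h : ℕ → ℝ) : G u h 0 = (1 - u 0) * h 0 := by
  unfold G; simp

lemma G_const (u : ℕ → ℝ) (a : ℝ) (l : ℕ) : G u (fun _ => a) l = (1 - u 0) * a := by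
  induction l with
  | zero => rw [G_zero]
  | succ l ih => rw [G_succ, ih]; ring

/-- revenue from the first bidder -/
lemma G_le (u p P X : ℕ → ℝ) (hu : ∀ j, u j < 1) (hp : ∀ j, (1 - u j) * p j = 1)
    (h0 : P 0 ≤ p 0 * X 0) (h1 : ∀ j, P (j+1) ≤ P j + p (j+1) * (X (j+1) - X j)) (l : ℕ) :
    G u P l ≤ X l := by
  induction l with
  | zero =>
    rw [G_zero]
    have := mul_le_mul_of_nonneg_left h0 (sub_nonneg.2 (hu 0).le)
    rw [← mul_assoc, hp 0, one_mul] at this
    exact this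
  | succ l ih =>
    rw [G_succ]
    have h2 : P (l+1) - P l ≤ p (l+1) * (X (l+1) - X l) := by linarith [h1 l]
    have := mul_le_mul_of_nonneg_left h2 (sub_nonneg.2 (hu (l+1)).le)
    rw [← mul_assoc, hp (l+1), one_mul] at this
    linarith

lemma G_mono (u : ℕ → ℝ) (hu : ∀ j, u j ≤ u (j+1)) (hu1 : ∀ j, u j < 1) {h h' : ℕ → ℝ} {l : ℕ}
    (hh : ∀ j ≤ l, h j ≤ h' j) : G u h l ≤ G u h' l := by
  unfold G
  refine add_le_add (Finset.sum_le_sum fun j hj => ?_) ?_
  · rw [Finset.mem_range] at hj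
    exact mul_le_mul_of_nonneg_left (hh j hj.le) (sub_nonneg.2 (hu j))
  · exact mul_le_mul_of_nonneg_left (hh l le_rfl) (sub_nonneg.2 (hu1 l).le)

lemma sum_rw (u : ℕ → ℝ) (c : ℝ) (n : ℕ) (y : ℕ → ℝ) :
    ∑ l ∈ range (n+1), rw' u c n l * y l =
      ∑ l ∈ range n, c * (1 / u l - 1 / u (l+1)) * y l + c / u n * y n := by
  rw [Finset.sum_range_succ]
  congr 1
  · refine Finset.sum_congr rfl fun l hl => ?_
    rw [Finset.mem_range] at hl
    unfold rw'
    rw [if_pos hl]
  · unfold rw'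
    rw [if_neg (by omega)]

/-- summation by parts -/
lemma sum_rw_G (u : ℕ → ℝ) (hu0 : ∀ j, u j ≠ 0) (c : ℝ) (h : ℕ → ℝ) (n : ℕ) :
    ∑ l ∈ range n, c * (1 / u l - 1 / u (l+1)) * G u h l + c / u n * G u h n =
      ∑ l ∈ range n, c * (1 / u l - 1 / u (l+1)) * h l + c * (1 / u n - 1) * h n := by
  induction n with
  | zero =>
    simp only [Finset.range_zero, Finset.sum_empty, zero_add, G_zero]
    have := hu0 0
    field_simp
  | succ n ih =>
    rw [Finset.sum_range_succ, Finset.sum_range_succ, G_succ]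
    have h1 := hu0 n
    have h2 := hu0 (n+1)
    have e : c / u (n+1) * (G u h n + (1 - u (n+1)) * (h (n+1) - h n)) =
        c / u (n+1) * G u h n + c * (1 / u (n+1) - 1) * (h (n+1) - h n) := by
      field_simp
    rw [e]
    have e2 : c * (1 / u n - 1 / u (n+1)) * G u h n = c / u n * G u h n - c / u (n+1) * G u h n := by
      ring
    rw [e2]
    linear_combination ih

lemma telescope (u : ℕ → ℝ) (c : ℝ) (n : ℕ) :
    ∑ l ∈ range n, c * (1 / u l - 1 / u (l+1)) = c / u 0 - c / u n := by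
  induction n with
  | zero => simp
  | succ n ih => rw [Finset.sum_range_succ, ih]; ring

/-- the key identity: the revenue of the best mechanism that does not distinguish the types -/
lemma key_bound (u : ℕ → ℝ) (hu0 : ∀ j, 0 < u j)
    (c : ℝ) (hc : 0 ≤ c) (hc1 : c / u 0 - c = 1) (n : ℕ) (X : ℕ → ℝ) (η : ℝ)
    (hX : ∀ j, X j ≤ 1) :
    ∑ l ∈ range (n+1), rw' u c n l * X l +
      ∑ l ∈ range (n+1), rw' u c n l * G u (fun j => η + (1 - X j)) l ≤ 1 + η + c := by
  rw [sum_rw, sum_rw, sum_rw_G u (fun j => (hu0 j).ne')]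
  have e : ∑ l ∈ range n, c * (1 / u l - 1 / u (l+1)) * X l +
      ∑ l ∈ range n, c * (1 / u l - 1 / u (l+1)) * (η + (1 - X l)) =
      (c / u 0 - c / u n) * (1 + η) := by
    rw [← telescope, Finset.sum_mul, ← Finset.sum_add_distrib]
    refine Finset.sum_congr rfl fun l _ => ?_
    ring
  have e2 : c / u n * X n + c * (1 / u n - 1) * (η + (1 - X n)) =
      (c / u n - c) * (1 + η) + c * X n := by
    ring
  have h1 : c * X n ≤ c * 1 := mul_le_mul_of_nonneg_left (hX n) hc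
  have h2 : c / u 0 = 1 + c := by linarith
  have e3 : (c / u 0 - c / u n) * (1 + η) + ((c / u n - c) * (1 + η) + c * X n) =
      (c / u 0 - c) * (1 + η) + c * X n := by ring
  rw [hc1] at e3
  linarith [e, e2, e3, h1]

lemma rw_nonneg (u : ℕ → ℝ) (hu0 : ∀ j, 0 < u j) (hu : ∀ j, u j ≤ u (j+1))
    (c : ℝ) (hc : 0 ≤ c) (n l : ℕ) : 0 ≤ rw' u c n l := by
  unfold rw'
  split_ifs
  · refine mul_nonneg hc (sub_nonneg.2 ?_)
    exact one_div_le_one_div_of_le (hu0 l) (hu l)
  · exact div_nonneg hc (hu0 l).le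

lemma gw_nonneg (u : ℕ → ℝ) (hu : ∀ j, u j ≤ u (j+1)) (hu1 : ∀ j, u j < 1) (l j : ℕ) :
    0 ≤ gw u l j := by
  unfold gw
  split_ifs
  · exact sub_nonneg.2 (hu j)
  · exact sub_nonneg.2 (hu1 l).le
  · exact le_rfl

end Pool.Agent.Helper1x.LA
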