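import Mathlib
import Pool.Agent.Helper1x.LA.Exist
import Pool.Agent.Helper1x.LA.Sums
import Pool.Agent.Helper1x.LA.Count

/-!
# Upper bound for the revenue of every mechanism for the bidders in `K`
-/

set_option autoImplicit false

namespace Pool.Agent.Helper1x.LA

open Finset Function

section single
variable {κ : Type} [Fintype κ] [DecidableEq κ]

/-- truthfulness for two values of the same bidder -/
lemma truth2 {M : Mechanism κ} (hM : M.Valid) {v : κ → ℝ} (hv : ∀ i, 0 < v i) (i : κ) {b : ℝ}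
    (hb : 0 < b) :
    M.pay (update v i b) i ≤ M.pay v i + b * (M.alloc (update v i b) i - M.alloc v i) := by
  have h := hM.truthful (update v i b) (update_pos hv i hb) i (v i) (hv i)
  rw [update_idem, update_eq_self] at h
  simp only [update_self] at h
  linarith

lemma alloc_mono {M : Mechanism κ} (hM : M.Valid) {v : κ → ℝ} (hv : ∀ i, 0 < v i) (i : κ) {b : ℝ}
    (hb : v i ≤ b) : M.alloc v i ≤ M.alloc (update v i b) i := by
  have hb0 : 0 < b := lt_of_lt_of_le (hv i) hb
  rcases eq_or_lt_of_le hb with h | h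
  · rw [← h, update_eq_self]
  · have h1 := truth2 hM hv i hb0
    have h2 := hM.truthful v hv i b hb0
    have h3 : (b - v i) * M.alloc v i ≤ (b - v i) * M.alloc (update v i b) i := by linarith
    exact le_of_mul_le_mul_left h3 (by linarith)

end single

section core

variable {κ : Type} [Fintype κ] [DecidableEq κ] {I : Type} [Fintype I] [DecidableEq I]
  {Q : ℕ} [NeZero Q]

/-- the value vectors of the hard distribution -/
structure Setup (κ I : Type) [Fintype κ] [DecidableEq κ] [Fintype I] [DecidableEq I] (Q : ℕ)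
    (p : ℕ → ℝ) (δ : ℝ) (t : κ) (e : I → κ) (val : (I → Fin Q) → ℕ → κ → ℝ) : Prop where
  hsum : ∀ f : κ → ℝ, ∑ i, f i = f t + ∑ i : I, f (e i)
  val_t : ∀ b j, val b j t = p j
  val_e : ∀ b j i, val b j (e i) = 1 + δ * ((b i : ℕ) + 1)
  upd_t : ∀ b j j', val b j' = update (val b j) t (p j')
  upd_e : ∀ b j i y, val (update b i y) j = update (val b j) (e i) (1 + δ * ((y : ℕ) + 1))
  pos : ∀ b j i, 0 < val b j i

variable {u p : ℕ → ℝ} {δ c : ℝ} {t : κ} {e : I → κ} {val : (I → Fin Q) → ℕ → κ → ℝ}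

/-- expectation of `f` under the hard distribution -/
noncomputable def Ex (I : Type) [Fintype I] [DecidableEq I] (Q : ℕ) (u : ℕ → ℝ) (c : ℝ) (n : ℕ)
    (f : (I → Fin Q) → ℕ → ℝ) : ℝ :=
  ∑ b : I → Fin Q, ∑ j ∈ range (n+1),
    (rw' u c n (ty n b) / NN I Q n * gw u (ty n b) j) * f b j

lemma Ex_eq (n : ℕ) (f : (I → Fin Q) → ℕ → ℝ) :
    Ex I Q u c n f = ∑ l ∈ range (n+1), rw' u c n l *
      ((∑ b : I → Fin Q with ty n b = l, G u (f b) l) / NN I Q n) := by
  unfold Ex
  have h1 : ∀ b : I → Fin Q, ∑ j ∈ range (n+1),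
      (rw' u c n (ty n b) / NN I Q n * gw u (ty n b) j) * f b j =
      rw' u c n (ty n b) / NN I Q n * G u (f b) (ty n b) := by
    intro b
    rw [← sum_gw u (f b) (Nat.lt_succ_iff.1 (ty_lt n b)), Finset.mul_sum]
    refine Finset.sum_congr rfl fun j _ => ?_
    ring
  rw [Finset.sum_congr rfl fun b _ => h1 b]
  have h2 := Finset.sum_fiberwise_of_maps_to (s := (univ : Finset (I → Fin Q)))
    (t := range (n+1)) (g := ty n) (fun b _ => Finset.mem_range.2 (ty_lt n b))
    (fun b => rw' u c n (ty n b) / NN I Q n * G u (f b) (ty n b))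
  rw [← h2]
  refine Finset.sum_congr rfl fun l _ => ?_
  rw [Finset.sum_div, Finset.mul_sum]
  refine Finset.sum_congr rfl fun b hb => ?_
  rw [Finset.mem_filter] at hb
  rw [hb.2]
  ring

lemma Ex_mono (hu0 : ∀ j, 0 < u j) (hu : ∀ j, u j ≤ u (j+1)) (hu1 : ∀ j, u j < 1)
    (hc : 0 ≤ c) (n : ℕ) {f g : (I → Fin Q) → ℕ → ℝ} (h : ∀ b j, f b j ≤ g b j) :
    Ex I Q u c n f ≤ Ex I Q u c n g := by
  unfold Ex
  refine Finset.sum_le_sum fun b _ => Finset.sum_le_sum fun j _ => ?_
  refine mul_le_mul_of_nonneg_left (h b j) ?_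
  exact mul_nonneg (div_nonneg (rw_nonneg u hu0 hu c hc n _) (NN_pos n).le)
    (gw_nonneg u hu hu1 _ _)

lemma Ex_add (n : ℕ) (f g : (I → Fin Q) → ℕ → ℝ) :
    Ex I Q u c n (fun b j => f b j + g b j) = Ex I Q u c n f + Ex I Q u c n g := by
  unfold Ex
  simp only [mul_add, Finset.sum_add_distrib]

lemma Ex_smul (n : ℕ) (a : ℝ) (f : (I → Fin Q) → ℕ → ℝ) :
    Ex I Q u c n (fun b j => a * f b j) = a * Ex I Q u c n f := by
  unfold Ex
  rw [Finset.mul_sum]
  refine Finset.sum_congr rfl fun b _ => ?_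
  rw [Finset.mul_sum]
  refine Finset.sum_congr rfl fun j _ => ?_
  ring

lemma Ex_const [Nonempty I] (hu0 : ∀ j, 0 < u j) (hc1 : c / u 0 - c = 1) {n : ℕ} (hQ : n + 1 ∣ Q)
    (a : ℝ) : Ex I Q u c n (fun _ _ => a) = a := by
  rw [Ex_eq]
  have h1 : ∀ l ∈ range (n+1), rw' u c n l *
      ((∑ b : I → Fin Q with ty n b = l, G u (fun _ => a) l) / NN I Q n) =
      rw' u c n l * ((1 - u 0) * a) := by
    intro l hl
    have h2 := card_ty (I := I) hQ (Finset.mem_range.1 hl)
    have h3 : ∑ b : I → Fin Q with ty n b = l, G u (fun _ => a) l =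
        ((1 - u 0) * a) * ∑ b : I → Fin Q with ty n b = l, (1:ℝ) := by
      rw [Finset.mul_sum]
      refine Finset.sum_congr rfl fun b _ => ?_
      rw [G_const, mul_one]
    rw [h3, h2, mul_div_assoc, div_self (NN_pos n).ne', mul_one]
  rw [Finset.sum_congr rfl h1, sum_rw, ← Finset.sum_mul, telescope]
  have h4 := (hu0 0).ne'
  have h5 : c / u 0 * (1 - u 0) = 1 := by
    have : c / u 0 * (1 - u 0) = c / u 0 - c := by field_simp
    rw [this, hc1]
  have : (c / u 0 - c / u n) * ((1 - u 0) * a) + c / u n * ((1 - u 0) * a) =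
      (c / u 0 * (1 - u 0)) * a := by ring
  rw [this, h5, one_mul]

/-- **Upper bound.** Every mechanism for the bidders in `K` has revenue at most `1 + c` plus a small
error. -/
theorem core [Nonempty I] (hS : Setup κ I Q p δ t e val)
    (hu0 : ∀ j, 0 < u j) (hu : ∀ j, u j ≤ u (j+1)) (hu1 : ∀ j, u j < 1)
    (hp : ∀ j, (1 - u j) * p j = 1) (hδ : 0 ≤ δ)
    (hc : 0 ≤ c) (hc1 : c / u 0 - c = 1) {n : ℕ} (hQ : n + 1 ∣ Q)
    {M : Mechanism κ} (hM : M.Valid) :
    Ex I Q u c n (fun b j => ∑ i, M.pay (val b j) i) ≤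
      1 + c + (Fintype.card I * ((n+1)^2 / Q) +
        δ * (Q + 1) * (1 + Fintype.card I * ((n+1)^2 / Q))) := by
  set η : ℝ := Fintype.card I * ((n+1)^2 / Q) with hη
  have hη0 : 0 ≤ η := by positivity
  have hNN : 0 < NN I Q n := NN_pos n
  -- decomposition of the payments
  set F : (I → Fin Q) → ℕ → ℝ := fun b j => ∑ i : I, M.alloc (val b j) (e i) with hF
  have hF0 : ∀ b j, 0 ≤ F b j := fun b j =>
    Finset.sum_nonneg fun i _ => hM.alloc_nonneg _ (hS.pos b j) _
  have hpay : ∀ b j, ∑ i, M.pay (val b j) i ≤ M.pay (val b j) t + (1 + δ * (Q + 1)) * F b j := by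
    intro b j
    rw [hS.hsum, hF]
    simp only
    rw [Finset.mul_sum]
    refine add_le_add le_rfl (Finset.sum_le_sum fun i _ => ?_)
    refine (pay_le hM (hS.pos b j) (e i)).trans ?_
    refine mul_le_mul_of_nonneg_right ?_ (hM.alloc_nonneg _ (hS.pos b j) _)
    rw [hS.val_e]
    have : ((b i : ℕ) : ℝ) ≤ Q := by exact_mod_cast (b i).2.le
    have := mul_le_mul_of_nonneg_left this hδ
    linarith
  refine (Ex_mono hu0 hu hu1 hc n hpay).trans ?_
  rw [Ex_add, Ex_smul]
  -- the first bidder
  set X : ℕ → ℝ := fun l => (∑ b : I → Fin Q with ty n b = l, M.alloc (val b l) t) / NN I Q n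
    with hX
  have hX1 : ∀ l < n + 1, X l ≤ 1 := by
    intro l hl
    rw [hX]
    simp only
    rw [div_le_one hNN, ← card_ty (I := I) hQ hl]
    exact Finset.sum_le_sum fun b _ => alloc_le_one hM (hS.pos b l) t
  have hfirst : Ex I Q u c n (fun b j => M.pay (val b j) t) ≤
      ∑ l ∈ range (n+1), rw' u c n l * X l := by
    rw [Ex_eq]
    refine Finset.sum_le_sum fun l _ => mul_le_mul_of_nonneg_left ?_ (rw_nonneg u hu0 hu c hc n l)
    refine div_le_div_of_nonneg_right (Finset.sum_le_sum fun b _ => ?_) hNN.le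
    refine G_le u p (fun j => M.pay (val b j) t) (fun j => M.alloc (val b j) t) hu1 hp ?_ ?_ l
    · have := pay_le hM (hS.pos b 0) t
      rwa [hS.val_t] at this
    · intro j
      have hpj : 0 < p (j+1) := by
        have := hS.pos b (j+1) t
        rwa [hS.val_t] at this
      have := truth2 hM (hS.pos b j) t hpj
      rw [← hS.upd_t] at this
      exact this
  -- the other bidders
  have hother : ∀ j l, j < n + 1 → l < n + 1 →
      (∑ b : I → Fin Q with ty n b = l, F b j) / NN I Q n ≤ η + (1 - X j) := by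
    intro j l hj hl
    have h1 : (∑ b : I → Fin Q with ty n b = l, F b j) / NN I Q n ≤
        (∑ b : I → Fin Q with ty n b = j, F b j) / NN I Q n + η := by
      have h2 : ∀ i : I, (∑ b : I → Fin Q with ty n b = l, M.alloc (val b j) (e i)) / NN I Q n ≤
          (∑ b : I → Fin Q with ty n b = j, M.alloc (val b j) (e i)) / NN I Q n + (n+1)^2 / Q := by
        intro i
        refine shift hQ i hl hj (fun b => M.alloc (val b j) (e i))
          (fun b => hM.alloc_nonneg _ (hS.pos b j) _) (fun b => alloc_le_one hM (hS.pos b j) _) ?_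
        intro b y hy
        rw [hS.upd_e]
        refine alloc_mono hM (hS.pos b j) (e i) ?_
        rw [hS.val_e]
        have : ((b i : ℕ) : ℝ) ≤ (y : ℕ) := by exact_mod_cast hy
        have := mul_le_mul_of_nonneg_left this hδ
        linarith
      have h3 := Finset.sum_le_sum (s := (univ : Finset I)) fun i _ => h2 i
      rw [Finset.sum_add_distrib, Finset.sum_const, Finset.card_univ, nsmul_eq_mul,
        ← Finset.sum_div, ← Finset.sum_div] at h3
      rw [hF]
      simp only
      rw [Finset.sum_comm, Finset.sum_comm (s := univ.filter fun b : I → Fin Q => ty n b = j)]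
      exact h3
    refine h1.trans ?_
    have h4 : (∑ b : I → Fin Q with ty n b = j, F b j) / NN I Q n ≤ 1 - X j := by
      rw [hX]
      simp only
      rw [le_sub_iff_add_le, ← add_div, div_le_one hNN, ← Finset.sum_add_distrib,
        ← card_ty (I := I) hQ hj]
      refine Finset.sum_le_sum fun b _ => ?_
      have := hM.alloc_le _ (hS.pos b j)
      rw [hS.hsum] at this
      rw [hF]
      simp only
      linarith
    linarith
  set X' : ℕ → ℝ := fun j => if j < n + 1 then X j else 0 with hX'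
  have hX'1 : ∀ j, X' j ≤ 1 := by
    intro j
    rw [hX']
    simp only
    split_ifs with h
    · exact hX1 j h
    · norm_num
  have hsecond : Ex I Q u c n F ≤
      ∑ l ∈ range (n+1), rw' u c n l * G u (fun j => η + (1 - X' j)) l := by
    rw [Ex_eq]
    refine Finset.sum_le_sum fun l hl => mul_le_mul_of_nonneg_left ?_ (rw_nonneg u hu0 hu c hc n l)
    have hl' := Finset.mem_range.1 hl
    have e1 : (∑ b : I → Fin Q with ty n b = l, G u (F b) l) / NN I Q n =
        G u (fun j => (∑ b : I → Fin Q with ty n b = l, F b j) / NN I Q n) l := by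
      unfold G
      rw [Finset.sum_add_distrib, add_div, Finset.sum_comm, Finset.sum_div, ← Finset.mul_sum,
        mul_div_assoc]
      congr 1
      refine Finset.sum_congr rfl fun j _ => ?_
      rw [← Finset.mul_sum, mul_div_assoc]
    rw [e1]
    refine G_mono u hu hu1 fun j hj => ?_
    rw [hX']
    simp only
    rw [if_pos (by omega)]
    exact hother j l (by omega) hl'
  have hkey := key_bound u hu0 c hc hc1 n X' η hX'1
  have e2 : ∑ l ∈ range (n+1), rw' u c n l * X l = ∑ l ∈ range (n+1), rw' u c n l * X' l := by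
    refine Finset.sum_congr rfl fun l hl => ?_
    rw [hX']
    simp only
    rw [if_pos (Finset.mem_range.1 hl)]
  -- crude bound for the second expectation
  have hcrude : Ex I Q u c n F ≤ 1 := by
    have h1 : ∀ b j, F b j ≤ 1 := by
      intro b j
      have := hM.alloc_le _ (hS.pos b j)
      rw [hS.hsum] at this
      have h2 := hM.alloc_nonneg _ (hS.pos b j) t
      rw [hF]
      simp only
      linarith
    refine (Ex_mono hu0 hu hu1 hc n h1).trans (Ex_const hu0 hc1 hQ 1).le
  have h6 : δ * (Q + 1) * Ex I Q u c n F ≤ δ * (Q + 1) * (1 + η) := by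
    refine mul_le_mul_of_nonneg_left ?_ (by positivity)
    linarith
  rw [e2] at hfirst
  have e3 : (1 + δ * (Q + 1)) * Ex I Q u c n F =
      Ex I Q u c n F + δ * (Q + 1) * Ex I Q u c n F := by ring
  rw [e3]
  linarith

end core

end Pool.Agent.Helper1x.LA
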