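import Mathlib
import Pool.Agent.Helper1x.LA.Exist

/-!
# General facts on lookahead mechanisms
-/

set_option autoImplicit false

namespace Pool.Agent.Helper1x.LA

open Finset Function

variable {n : ℕ}

lemma finsupp_sum_mul {α : Type*} (w : α →₀ ℝ) (f : α → ℝ) :
    (w.sum fun v a => a * f v) = Finsupp.linearCombination ℝ f w := by
  rw [Finsupp.linearCombination_apply]
  rfl

lemma finsupp_sum_one {α : Type*} (w : α →₀ ℝ) :
    (w.sum fun _ a => a) = Finsupp.linearCombination ℝ (fun _ => (1:ℝ)) w := by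
  rw [← finsupp_sum_mul]
  simp

lemma finsupp_sum_le {α : Type*} (w : α →₀ ℝ) (hw : ∀ v, 0 ≤ w v) {f g : α → ℝ}
    (h : ∀ v ∈ w.support, f v ≤ g v) :
    (w.sum fun v a => a * f v) ≤ w.sum fun v a => a * g v :=
  Finset.sum_le_sum fun v hv => mul_le_mul_of_nonneg_left (h v hv) (hw v)

/-- every bidder in the top set has at least the value of each bidder outside -/
lemma top_ge (k : ℕ) (v : Fin n → ℝ) {i j : Fin n} (hi : i ∈ top k v) (hj : j ∉ top k v) :
    v j ≤ v i := by
  classical
  by_contra hlt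
  push Not at hlt
  unfold top at hi hj
  simp only [Finset.mem_filter, Finset.mem_univ, true_and] at hi hj
  apply hj
  refine lt_of_le_of_lt ?_ hi
  refine Finset.card_le_card ?_
  intro l hl
  simp only [Finset.mem_filter, Finset.mem_univ, true_and] at hl ⊢
  left
  rcases hl with h | ⟨h, _⟩
  · linarith
  · linarith

lemma event_top (k : ℕ) (v : Fin n → ℝ) : Event (top k v) (outside (top k v) v) v :=
  ⟨rfl, fun _ hi _ hj => top_ge k v hi hj⟩

lemma exists_isOptimal (D : ValDist n) (K : Finset (Fin n)) (o : {j : Fin n // j ∉ K} → ℝ) :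
    ∃ M, D.IsOptimal K o M := by
  classical
  obtain ⟨M, hM, hmax⟩ := exists_optimal (ι := {i : Fin n // i ∈ K}) (D.w.filter (Event K o)).support
    (fun v => (D.w.filter (Event K o)) v) (fun v _ => by
      rw [Finsupp.filter_apply]; split_ifs; exacts [D.nonneg v, le_rfl])
    (fun v => inside K v) (fun v hv i => by
      rw [Finsupp.support_filter, Finset.mem_filter] at hv
      exact D.pos v hv.1 i)
  refine ⟨M, hM, fun M' hM' => ?_⟩
  unfold ValDist.condRevenue
  refine div_le_div_of_nonneg_right (hmax M' hM') ?_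
  refine Finset.sum_nonneg fun v _ => ?_
  rw [Finsupp.filter_apply]; split_ifs; exacts [D.nonneg v, le_rfl]

lemma exists_lookahead (k : ℕ) (D : ValDist n) : ∃ A, IsLookahead k D A := by
  choose A hA using exists_isOptimal D
  exact ⟨A, fun v _ => hA _ _⟩

/-- the payments of an optimal mechanism are nonnegative on the support -/
lemma optimal_pay_nonneg {D : ValDist n} {K : Finset (Fin n)} {o : {j : Fin n // j ∉ K} → ℝ}
    {M : Mechanism {i : Fin n // i ∈ K}} (hM : D.IsOptimal K o M) {v : Fin n → ℝ}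
    (hv : v ∈ D.w.support) (he : Event K o v) (i : {i : Fin n // i ∈ K}) :
    0 ≤ M.pay (inside K v) i := by
  classical
  have hpos : ∀ v' ∈ (D.w.filter (Event K o)).support, ∀ i, 0 < inside K v' i := by
    intro v' hv' i
    rw [Finsupp.support_filter, Finset.mem_filter] at hv'
    exact D.pos v' hv'.1 i
  have hwpos : ∀ v' ∈ (D.w.filter (Event K o)).support, 0 < (D.w.filter (Event K o)) v' := by
    intro v' hv'
    have h0 := Finsupp.mem_support_iff.1 hv'
    rw [Finsupp.support_filter, Finset.mem_filter] at hv'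
    rw [Finsupp.filter_apply, if_pos hv'.2] at h0 ⊢
    exact lt_of_le_of_ne (D.nonneg v') (Ne.symm h0)
  have hvs : v ∈ (D.w.filter (Event K o)).support := by
    rw [Finsupp.support_filter, Finset.mem_filter]
    exact ⟨hv, he⟩
  have hZ : 0 < (D.w.filter (Event K o)).sum fun _ a => a :=
    Finset.sum_pos hwpos ⟨v, hvs⟩
  have h1 := hM.2 (normalize M) (normalize_valid hM.1)
  unfold ValDist.condRevenue at h1
  rw [div_le_div_iff_of_pos_right hZ] at h1
  have h2 : ∀ v' ∈ (D.w.filter (Event K o)).support,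
      (D.w.filter (Event K o)) v' * ∑ i, M.pay (inside K v') i ≤
      (D.w.filter (Event K o)) v' * ∑ i, (normalize M).pay (inside K v') i := by
    intro v' hv'
    refine mul_le_mul_of_nonneg_left ?_ (hwpos v' hv').le
    exact Finset.sum_le_sum fun i _ => normalize_pay_ge hM.1 (hpos v' hv') i
  have h3 : ∑ v' ∈ (D.w.filter (Event K o)).support,
      (D.w.filter (Event K o)) v' * ∑ i, M.pay (inside K v') i =
      ∑ v' ∈ (D.w.filter (Event K o)).support,
      (D.w.filter (Event K o)) v' * ∑ i, (normalize M).pay (inside K v') i :=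
    le_antisymm (Finset.sum_le_sum h2) h1
  have h4 := (Finset.sum_eq_sum_iff_of_le h2).1 h3 v hvs
  have h5 := mul_left_cancel₀ (hwpos v hvs).ne' h4
  have h6 := (Finset.sum_eq_sum_iff_of_le fun i _ => normalize_pay_ge hM.1 (hpos v hvs) i).1 h5 i
    (Finset.mem_univ i)
  rw [h6]
  exact normalize_pay_nonneg hM.1 _ _

lemma lookRevenue_nonneg {k : ℕ} {D : ValDist n} {A : Family n} (hA : IsLookahead k D A) :
    0 ≤ lookRevenue k D A := by
  unfold lookRevenue
  refine Finset.sum_nonneg fun v hv => mul_nonneg (D.nonneg v) ?_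
  exact Finset.sum_nonneg fun i _ => optimal_pay_nonneg (hA v hv) hv (event_top k v) i

lemma ratios_nonneg (k : ℕ) : ∀ x ∈ ratios k, 0 ≤ x := by
  rintro x ⟨n, D, A, hA, hO, rfl⟩
  exact div_nonneg (lookRevenue_nonneg hA) hO.le

lemma bddAbove_revenue (D : ValDist n) :
    BddAbove {r | ∃ M : Mechanism (Fin n), M.Valid ∧ r = D.revenue M} := by
  refine ⟨D.w.sum fun v a => a * ∑ i, v i, ?_⟩
  rintro r ⟨M, hM, rfl⟩
  refine finsupp_sum_le D.w D.nonneg fun v hv => ?_
  exact Finset.sum_le_sum fun i _ => pay_le_val hM (D.pos v hv) i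

lemma le_OPT (D : ValDist n) {M : Mechanism (Fin n)} (hM : M.Valid) : D.revenue M ≤ D.OPT :=
  le_csSup (bddAbove_revenue D) ⟨M, hM, rfl⟩

end Pool.Agent.Helper1x.LA
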