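import Mathlib
import Pool.Agent.Helper1x.LA.General
import Pool.Agent.Helper1x.LA.Core

/-!
# The hard distribution
-/

set_option autoImplicit false

namespace Pool.Agent.Helper1x.LA

open Finset Function

section vec
variable {k' : ℕ}

/-- the index of the info bidder `i` -/
def info (i : Fin k') : Fin (k'+2) := (Fin.castSucc i).succ

lemma info_ne_zero (i : Fin k') : info i ≠ 0 := Fin.succ_ne_zero _

lemma info_ne_last (i : Fin k') : info i ≠ Fin.last (k'+1) := by
  intro h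
  have := congrArg Fin.val h
  simp only [info, Fin.val_succ, Fin.val_castSucc, Fin.val_last] at this
  have := i.2
  omega

lemma info_inj {i j : Fin k'} (h : info i = info j) : i = j :=
  Fin.castSucc_injective _ (Fin.succ_injective _ h)

lemma last_ne_zero : Fin.last (k'+1) ≠ 0 := by
  intro h
  have := congrArg Fin.val h
  simp at this

lemma sum_univ_info (f : Fin (k'+2) → ℝ) :
    ∑ i, f i = f 0 + ∑ i : Fin k', f (info i) + f (Fin.last (k'+1)) := by
  rw [Fin.sum_univ_succ, Fin.sum_univ_castSucc, ← add_assoc]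
  rfl

lemma cases_idx (P : Fin (k'+2) → Prop) (h0 : P 0) (hi : ∀ i : Fin k', P (info i))
    (hl : P (Fin.last (k'+1))) : ∀ i, P i := by
  intro i
  refine Fin.cases h0 (fun j => ?_) i
  refine Fin.lastCases ?_ (fun l => ?_) j
  · exact hl
  · exact hi l

/-- the value vector with value `x` of the target bidder, values `y` of the info bidders and value
`1` of the last bidder -/
def vec (x : ℝ) (y : Fin k' → ℝ) : Fin (k'+2) → ℝ :=
  Fin.cons x (Fin.snoc (α := fun _ => ℝ) y 1 : Fin (k'+1) → ℝ)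

@[simp] lemma vec_zero (x : ℝ) (y : Fin k' → ℝ) : vec x y 0 = x := rfl

@[simp] lemma vec_info (x : ℝ) (y : Fin k' → ℝ) (i : Fin k') : vec x y (info i) = y i := by
  unfold vec info
  rw [Fin.cons_succ, Fin.snoc_castSucc]

@[simp] lemma vec_last (x : ℝ) (y : Fin k' → ℝ) : vec x y (Fin.last (k'+1)) = 1 := by
  unfold vec
  rw [show Fin.last (k'+1) = (Fin.last k').succ from rfl, Fin.cons_succ, Fin.snoc_last]

/-- the set of all bidders but the last -/
def KK (k' : ℕ) : Finset (Fin (k'+2)) := univ.erase (Fin.last (k'+1))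

lemma mem_KK {i : Fin (k'+2)} : i ∈ KK k' ↔ i ≠ Fin.last (k'+1) := by
  simp [KK]

lemma top_vec {x : ℝ} {y : Fin k' → ℝ} (hx : 1 < x) (hy : ∀ i, 1 < y i) :
    top (k'+1) (vec x y) = KK k' := by
  classical
  have hgt : ∀ i, i ≠ Fin.last (k'+1) → 1 < vec x y i := by
    refine cases_idx _ ?_ ?_ ?_
    · intro _; simpa using hx
    · intro i _; simpa using hy i
    · intro h; exact absurd rfl h
  ext i
  rw [mem_KK]
  unfold top
  simp only [Finset.mem_filter, Finset.mem_univ, true_and]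
  constructor
  · rintro h rfl
    have h1 : (univ.erase (Fin.last (k'+1))).card ≤ (Finset.univ.filter fun j =>
        vec x y (Fin.last (k'+1)) < vec x y j ∨
        (vec x y j = vec x y (Fin.last (k'+1)) ∧ j < Fin.last (k'+1))).card := by
      refine Finset.card_le_card fun j hj => ?_
      simp only [Finset.mem_filter, Finset.mem_univ, true_and]
      left
      rw [vec_last]
      exact hgt j (Finset.ne_of_mem_erase hj)
    rw [Finset.card_erase_of_mem (Finset.mem_univ _), Finset.card_univ, Fintype.card_fin] at h1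
    omega
  · intro hi
    have h1 : (Finset.univ.filter fun j => vec x y i < vec x y j ∨
        (vec x y j = vec x y i ∧ j < i)).card ≤ ((univ.erase (Fin.last (k'+1))).erase i).card := by
      refine Finset.card_le_card fun j hj => ?_
      simp only [Finset.mem_filter, Finset.mem_univ, true_and] at hj
      rw [Finset.mem_erase, Finset.mem_erase]
      have hi1 := hgt i hi
      rcases hj with h | ⟨h, h'⟩
      · refine ⟨?_, ?_, Finset.mem_univ _⟩
        · rintro rfl; exact lt_irrefl _ h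
        · rintro rfl; rw [vec_last] at h; linarith
      · refine ⟨ne_of_lt h', ?_, Finset.mem_univ _⟩
        rintro rfl; rw [vec_last] at h; linarith
    rw [Finset.card_erase_of_mem (Finset.mem_erase.2 ⟨hi, Finset.mem_univ _⟩),
      Finset.card_erase_of_mem (Finset.mem_univ _), Finset.card_univ, Fintype.card_fin] at h1
    omega

lemma outside_vec (x : ℝ) (y : Fin k' → ℝ) : outside (KK k') (vec x y) = fun _ => 1 := by
  funext j
  have hj : (j : Fin (k'+2)) = Fin.last (k'+1) := by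
    by_contra h
    exact j.2 (mem_KK.2 h)
  unfold outside
  rw [hj, vec_last]

end vec

section dist

variable {k' : ℕ} [NeZero k'] {Q : ℕ} [NeZero Q] {u p : ℕ → ℝ} {δ c : ℝ} {n : ℕ}

/-- the value vectors -/
noncomputable def fv (p : ℕ → ℝ) (δ : ℝ) (b : Fin k' → Fin Q) (j : ℕ) : Fin (k'+2) → ℝ :=
  vec (p j) (fun i => 1 + δ * ((b i : ℕ) + 1))

/-- the weights -/
noncomputable def wt (k' : ℕ) (Q : ℕ) (u : ℕ → ℝ) (c : ℝ) (n : ℕ) (b : Fin k' → Fin Q) (j : ℕ) : ℝ :=
  rw' u c n (ty n b) / NN (Fin k') Q n * gw u (ty n b) j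

lemma wt_nonneg (hu0 : ∀ j, 0 < u j) (hu : ∀ j, u j ≤ u (j+1)) (hu1 : ∀ j, u j < 1)
    (hc : 0 ≤ c) (b : Fin k' → Fin Q) (j : ℕ) : 0 ≤ wt k' Q u c n b j :=
  mul_nonneg (div_nonneg (rw_nonneg u hu0 hu c hc n _) (NN_pos n).le) (gw_nonneg u hu hu1 _ _)

/-- the distribution as a finitely supported function -/
noncomputable def hw (k' : ℕ) (Q : ℕ) (u p : ℕ → ℝ) (δ c : ℝ) (n : ℕ) : (Fin (k'+2) → ℝ) →₀ ℝ :=
  ∑ b : Fin k' → Fin Q, ∑ j ∈ range (n+1), Finsupp.single (fv p δ b j) (wt k' Q u c n b j)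

lemma hw_sum (f : (Fin (k'+2) → ℝ) → ℝ) :
    Finsupp.linearCombination ℝ f (hw k' Q u p δ c n) =
      Ex (Fin k') Q u c n (fun b j => f (fv p δ b j)) := by
  unfold hw Ex
  rw [map_sum]
  refine Finset.sum_congr rfl fun b _ => ?_
  rw [map_sum]
  refine Finset.sum_congr rfl fun j _ => ?_
  rw [Finsupp.linearCombination_single]
  rfl

lemma hw_nonneg (hu0 : ∀ j, 0 < u j) (hu : ∀ j, u j ≤ u (j+1)) (hu1 : ∀ j, u j < 1)
    (hc : 0 ≤ c) (v : Fin (k'+2) → ℝ) : 0 ≤ hw k' Q u p δ c n v := by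
  classical
  unfold hw
  rw [Finsupp.finset_sum_apply]
  refine Finset.sum_nonneg fun b _ => ?_
  rw [Finsupp.finset_sum_apply]
  refine Finset.sum_nonneg fun j _ => ?_
  rw [Finsupp.single_apply]
  split_ifs
  · exact wt_nonneg hu0 hu hu1 hc b j
  · exact le_rfl

lemma hw_support {v : Fin (k'+2) → ℝ} (hv : v ∈ (hw k' Q u p δ c n).support) :
    ∃ (b : Fin k' → Fin Q) (j : ℕ), v = fv p δ b j := by
  classical
  by_contra hne
  push Not at hne
  rw [Finsupp.mem_support_iff] at hv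
  apply hv
  unfold hw
  rw [Finsupp.finset_sum_apply]
  refine Finset.sum_eq_zero fun b _ => ?_
  rw [Finsupp.finset_sum_apply]
  refine Finset.sum_eq_zero fun j _ => ?_
  rw [Finsupp.single_apply, if_neg (hne b j).symm]

lemma p_gt_one (hu0 : ∀ j, 0 < u j) (hu1 : ∀ j, u j < 1) (hp : ∀ j, (1 - u j) * p j = 1) (j : ℕ) :
    1 < p j := by
  have h1 : 0 < 1 - u j := sub_pos.2 (hu1 j)
  have h2 := hp j
  have h3 := hu0 j
  by_contra hle
  push Not at hle
  have : (1 - u j) * p j ≤ (1 - u j) * 1 := mul_le_mul_of_nonneg_left hle h1.le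
  linarith

lemma share_gt_one (hδ : 0 < δ) (x : ℕ) : 1 < 1 + δ * ((x:ℝ) + 1) := by
  have : 0 < δ * ((x:ℝ) + 1) := by positivity
  linarith

lemma fv_pos (hδ : 0 < δ) (hu0 : ∀ j, 0 < u j) (hu1 : ∀ j, u j < 1)
    (hp : ∀ j, (1 - u j) * p j = 1) (b : Fin k' → Fin Q) (j : ℕ) : ∀ i, 0 < fv p δ b j i := by
  refine cases_idx _ ?_ ?_ ?_
  · simp only [fv, vec_zero]; linarith [p_gt_one hu0 hu1 hp j]
  · intro i; simp only [fv, vec_info]; linarith [share_gt_one hδ (b i)]
  · simp [fv]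

/-- the hard distribution -/
noncomputable def hardDist (k' : ℕ) [NeZero k'] (Q : ℕ) [NeZero Q] (u p : ℕ → ℝ) (δ c : ℝ) (n : ℕ)
    (hδ : 0 < δ) (hu0 : ∀ j, 0 < u j) (hu : ∀ j, u j ≤ u (j+1)) (hu1 : ∀ j, u j < 1)
    (hp : ∀ j, (1 - u j) * p j = 1) (hc : 0 ≤ c) (hc1 : c / u 0 - c = 1) (hQ : n + 1 ∣ Q) :
    ValDist (k'+2) where
  w := hw k' Q u p δ c n
  nonneg := hw_nonneg hu0 hu hu1 hc
  total := by
    have : Nonempty (Fin k') := ⟨⟨0, Nat.pos_of_ne_zero (NeZero.ne k')⟩⟩
    rw [finsupp_sum_one, hw_sum]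
    exact Ex_const hu0 hc1 hQ 1
  pos := by
    intro v hv
    obtain ⟨b, j, rfl⟩ := hw_support hv
    exact fv_pos hδ hu0 hu1 hp b j

end dist

end Pool.Agent.Helper1x.LA
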