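import Mathlib
import Pool.Agent.Helper1x.LA.Hard

/-!
# Upper bound for the lookahead mechanism, lower bound for the optimal mechanism
-/

set_option autoImplicit false

namespace Pool.Agent.Helper1x.LA

open Finset Function

section

variable {k' : ℕ} [NeZero k'] {Q : ℕ} [NeZero Q] {u p : ℕ → ℝ} {δ c : ℝ} {n : ℕ}

/-- the target bidder as an element of `K` -/
def tt (k' : ℕ) : {i : Fin (k'+2) // i ∈ KK k'} := ⟨0, mem_KK.2 (Ne.symm last_ne_zero)⟩

/-- the info bidders as elements of `K` -/
def ee (i : Fin k') : {i : Fin (k'+2) // i ∈ KK k'} := ⟨info i, mem_KK.2 (info_ne_last i)⟩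

lemma sum_KK (f : {i : Fin (k'+2) // i ∈ KK k'} → ℝ) :
    ∑ i, f i = f (tt k') + ∑ i : Fin k', f (ee i) := by
  classical
  set g : Fin (k'+2) → ℝ := fun i => if h : i ∈ KK k' then f ⟨i, h⟩ else 0 with hg
  have h1 : ∑ i, f i = ∑ i ∈ KK k', g i := by
    rw [← Finset.sum_coe_sort (KK k') g]
    refine Finset.sum_congr rfl fun i _ => ?_
    rw [hg]
    simp only
    rw [dif_pos i.2]
  have h2 : ∑ i ∈ KK k', g i = ∑ i, g i := by
    refine Finset.sum_subset (Finset.subset_univ _) fun i _ hi => ?_
    rw [hg]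
    simp only
    rw [dif_neg hi]
  rw [h1, h2, sum_univ_info]
  have h3 : g (Fin.last (k'+1)) = 0 := by
    rw [hg]
    simp only
    rw [dif_neg (fun h => mem_KK.1 h rfl)]
  have h4 : g 0 = f (tt k') := by
    rw [hg]
    simp only
    exact dif_pos (tt k').2
  have h5 : ∀ i : Fin k', g (info i) = f (ee i) := by
    intro i
    rw [hg]
    simp only
    exact dif_pos (ee i).2
  rw [h3, h4, add_zero, Finset.sum_congr rfl fun i _ => h5 i]

lemma cases_KK (P : {i : Fin (k'+2) // i ∈ KK k'} → Prop) (h0 : P (tt k'))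
    (hi : ∀ i : Fin k', P (ee i)) : ∀ i, P i := by
  rintro ⟨i, hi'⟩
  revert hi'
  revert i
  refine cases_idx _ ?_ ?_ ?_
  · intro _; exact h0
  · intro i _; exact hi i
  · intro h; exact absurd rfl (mem_KK.1 h)

lemma ee_ne_tt (i : Fin k') : ee i ≠ tt k' := by
  intro h
  exact info_ne_zero i (congrArg Subtype.val h)

lemma ee_inj {i j : Fin k'} (h : ee i = ee j) : i = j := info_inj (congrArg Subtype.val h)

lemma setup (hδ : 0 < δ) (hu0 : ∀ j, 0 < u j) (hu1 : ∀ j, u j < 1)
    (hp : ∀ j, (1 - u j) * p j = 1) :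
    Setup {i : Fin (k'+2) // i ∈ KK k'} (Fin k') Q p δ (tt k') ee
      (fun b j => inside (KK k') (fv p δ b j)) where
  hsum f := sum_KK f
  val_t b j := by simp [inside, tt, fv]
  val_e b j i := by simp [inside, ee, fv]
  upd_t b j j' := by
    funext i
    revert i
    refine cases_KK _ ?_ ?_
    · rw [update_self]; simp [inside, tt, fv]
    · intro i
      rw [update_of_ne (ee_ne_tt i)]
      simp [inside, ee, fv]
  upd_e b j i y := by
    funext i'
    revert i'
    refine cases_KK _ ?_ ?_
    · rw [update_of_ne (ee_ne_tt i).symm]; simp [inside, tt, fv]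
    · intro i'
      by_cases h : i' = i
      · subst h
        rw [update_self]; simp [inside, ee, fv]
      · rw [update_of_ne (fun h' => h (ee_inj h'))]
        simp [inside, ee, fv, update_of_ne h]
  pos b j i := fv_pos hδ hu0 hu1 hp b j i

/-- the revenue of every `k`-lookahead mechanism under the hard distribution -/
theorem look_le (hδ : 0 < δ) (hu0 : ∀ j, 0 < u j) (hu : ∀ j, u j ≤ u (j+1)) (hu1 : ∀ j, u j < 1)
    (hp : ∀ j, (1 - u j) * p j = 1) (hc : 0 ≤ c) (hc1 : c / u 0 - c = 1) (hQ : n + 1 ∣ Q)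
    (A : Family (k'+2))
    (hA : IsLookahead (k'+1) (hardDist k' Q u p δ c n hδ hu0 hu hu1 hp hc hc1 hQ) A) :
    lookRevenue (k'+1) (hardDist k' Q u p δ c n hδ hu0 hu hu1 hp hc hc1 hQ) A ≤
      1 + c + (k' * ((n+1)^2 / Q) + δ * (Q + 1) * (1 + k' * ((n+1)^2 / Q))) := by
  classical
  set D := hardDist k' Q u p δ c n hδ hu0 hu hu1 hp hc hc1 hQ with hD
  have : Nonempty (Fin k') := ⟨⟨0, Nat.pos_of_ne_zero (NeZero.ne k')⟩⟩
  have hsupp : ∀ v ∈ D.w.support, ∃ (b : Fin k' → Fin Q) (j : ℕ), v = fv p δ b j := fun v hv =>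
    hw_support hv
  have htop : ∀ v ∈ D.w.support, top (k'+1) v = KK k' := by
    intro v hv
    obtain ⟨b, j, rfl⟩ := hsupp v hv
    exact top_vec (p_gt_one hu0 hu1 hp j) (fun i => share_gt_one hδ _)
  have hout : ∀ v ∈ D.w.support, outside (KK k') v = fun _ => 1 := by
    intro v hv
    obtain ⟨b, j, rfl⟩ := hsupp v hv
    exact outside_vec _ _
  set M : Mechanism {i : Fin (k'+2) // i ∈ KK k'} := A (KK k') (fun _ => 1) with hM
  have hrev : ∀ v ∈ D.w.support,
      ∑ i, (A (top (k'+1) v) (outside (top (k'+1) v) v)).pay (inside (top (k'+1) v) v) i =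
      ∑ i, M.pay (inside (KK k') v) i := by
    intro v hv
    rw [htop v hv, hout v hv]
  have hne : D.w.support.Nonempty := by
    by_contra hne
    rw [Finset.not_nonempty_iff_eq_empty] at hne
    have := D.total
    unfold Finsupp.sum at this
    rw [hne] at this
    simp at this
  have hMv : M.Valid := by
    obtain ⟨v, hv⟩ := hne
    have := hA v hv
    rw [htop v hv, hout v hv] at this
    exact this.1
  have e1 : lookRevenue (k'+1) D A = D.w.sum fun v a => a * ∑ i, M.pay (inside (KK k') v) i := by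
    unfold lookRevenue
    refine Finset.sum_congr rfl fun v hv => ?_
    simp only
    rw [hrev v hv]
  rw [e1, finsupp_sum_mul]
  have e2 : D.w = hw k' Q u p δ c n := rfl
  rw [e2, hw_sum]
  have h := core (c := c) (setup (k' := k') (Q := Q) hδ hu0 hu1 hp) hu0 hu hu1 hp hδ.le hc hc1 hQ hMv
  simpa using h

open scoped Classical in
/-- the type of the info bidders' values -/
noncomputable def decodeTy (k' Q : ℕ) (δ : ℝ) (n : ℕ) (v : Fin (k'+2) → ℝ) : ℕ :=
  if h : ∃ b : Fin k' → Fin Q, ∀ i, v (info i) = 1 + δ * ((b i : ℕ) + 1) then ty n h.choose else 0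

lemma decodeTy_fv (hδ : 0 < δ) (b : Fin k' → Fin Q) (j : ℕ) :
    decodeTy k' Q δ n (fv p δ b j) = ty n b := by
  classical
  have h : ∃ b' : Fin k' → Fin Q, ∀ i, (fv p δ b j) (info i) = 1 + δ * ((b' i : ℕ) + 1) :=
    ⟨b, fun i => by simp [fv]⟩
  unfold decodeTy
  rw [dif_pos h]
  congr 1
  have h2 := h.choose_spec
  funext i
  have h3 := h2 i
  simp only [fv, vec_info] at h3
  apply Fin.ext
  have h4 : δ * (((b i : ℕ):ℝ) + 1) = δ * (((h.choose i : ℕ):ℝ) + 1) := by
    simpa [fv] using h3
  have h5 := mul_left_cancel₀ hδ.ne' h4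
  have h6 : ((b i : ℕ):ℝ) = ((h.choose i : ℕ):ℝ) := by linarith
  exact_mod_cast h6.symm

lemma decodeTy_update_zero (v : Fin (k'+2) → ℝ) (x : ℝ) :
    decodeTy k' Q δ n (update v 0 x) = decodeTy k' Q δ n v := by
  unfold decodeTy
  simp only [update_of_ne (info_ne_zero _)]

lemma decodeTy_update_last (v : Fin (k'+2) → ℝ) (x : ℝ) :
    decodeTy k' Q δ n (update v (Fin.last (k'+1)) x) = decodeTy k' Q δ n v := by
  unfold decodeTy
  simp only [update_of_ne (info_ne_last _)]

open scoped Classical in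
/-- the good mechanism: the target is offered the price of her type, and if she rejects, the last
bidder is offered the price one -/
noncomputable def goodMech (k' Q : ℕ) (p : ℕ → ℝ) (δ : ℝ) (n : ℕ) : Mechanism (Fin (k'+2)) where
  alloc v i :=
    if i = 0 then (if p (decodeTy k' Q δ n v) ≤ v 0 then 1 else 0)
    else if i = Fin.last (k'+1) then
      (if v 0 < p (decodeTy k' Q δ n v) ∧ 1 ≤ v (Fin.last (k'+1)) then 1 else 0)
    else 0
  pay v i :=
    if i = 0 then (if p (decodeTy k' Q δ n v) ≤ v 0 then p (decodeTy k' Q δ n v) else 0)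
    else if i = Fin.last (k'+1) then
      (if v 0 < p (decodeTy k' Q δ n v) ∧ 1 ≤ v (Fin.last (k'+1)) then 1 else 0)
    else 0

lemma goodMech_valid : (goodMech k' Q p δ n).Valid where
  alloc_nonneg v hv i := by
    simp only [goodMech]
    split_ifs <;> norm_num
  alloc_le v hv := by
    rw [sum_univ_info]
    simp only [goodMech, if_true, info_ne_zero, info_ne_last, if_false, Finset.sum_const_zero,
      add_zero, last_ne_zero]
    by_cases h : p (decodeTy k' Q δ n v) ≤ v 0
    · rw [if_pos h, if_neg (fun h' => absurd h (not_le.2 h'.1))]; norm_num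
    · rw [if_neg h]
      split_ifs <;> norm_num
  truthful v hv i b hb := by
    revert i
    refine cases_idx _ ?_ ?_ ?_
    · simp only [goodMech, if_true, decodeTy_update_zero, update_self]
      by_cases h : p (decodeTy k' Q δ n v) ≤ v 0
      · rw [if_pos h]
        by_cases h' : p (decodeTy k' Q δ n v) ≤ b
        · simp only [if_pos h']; simp [h]
        · simp only [if_neg h']; simp [h]
      · rw [if_neg h]
        push Not at h
        by_cases h' : p (decodeTy k' Q δ n v) ≤ b
        · simp only [if_pos h']; simp [not_le.2 h]; linarith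
        · simp only [if_neg h']; simp [not_le.2 h]
    · intro i
      simp only [goodMech, info_ne_zero, info_ne_last, if_false]
      exact le_rfl
    · simp only [goodMech, last_ne_zero, if_false, if_true, decodeTy_update_last, update_self,
        update_of_ne (Ne.symm (last_ne_zero (k' := k')))]
      by_cases h : v 0 < p (decodeTy k' Q δ n v)
      · by_cases h1 : 1 ≤ v (Fin.last (k'+1))
        · by_cases h2 : 1 ≤ b
          · simp [h, h1, h2]
          · simp [h, h1, h2]
        · push Not at h1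
          by_cases h2 : 1 ≤ b
          · simp [h, not_le.2 h1, h2]; linarith
          · simp [h, not_le.2 h1, h2]
      · simp [h]
  ir v hv i := by
    revert i
    refine cases_idx _ ?_ ?_ ?_
    · simp only [goodMech, if_true]
      by_cases h : p (decodeTy k' Q δ n v) ≤ v 0
      · simp [h]
      · simp [h]
    · intro i
      simp only [goodMech, info_ne_zero, info_ne_last, if_false]
      simp
    · simp only [goodMech, last_ne_zero, if_false, if_true]
      by_cases h : v 0 < p (decodeTy k' Q δ n v) ∧ 1 ≤ v (Fin.last (k'+1))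
      · simp [h]
      · simp [h]

lemma goodMech_pay (hδ : 0 < δ) (hp1 : ∀ j, 1 < p j) (b : Fin k' → Fin Q) (j : ℕ) :
    (if j = ty n b then p j else 1) ≤ ∑ i, (goodMech k' Q p δ n).pay (fv p δ b j) i := by
  rw [sum_univ_info]
  simp only [goodMech, if_true, info_ne_zero, info_ne_last, if_false, Finset.sum_const_zero,
      add_zero, last_ne_zero, decodeTy_fv hδ]
  have h0 : fv p δ b j 0 = p j := rfl
  have h1 : fv p δ b j (Fin.last (k'+1)) = 1 := by simp [fv]
  rw [h0, h1]
  by_cases h : j = ty n b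
  · rw [if_pos h, h]; simp
  · rw [if_neg h]
    by_cases h2 : p (ty n b) ≤ p j
    · rw [if_pos h2, if_neg (fun h' => absurd h2 (not_le.2 h'.1))]
      linarith [hp1 (ty n b)]
    · rw [if_neg h2, if_pos ⟨not_le.1 h2, le_rfl⟩]
      norm_num

lemma sum_ratio (u : ℕ → ℝ) (hu0 : ∀ j, u j ≠ 0) (c : ℝ) (n : ℕ) :
    ∑ l ∈ range n, c * (1 / u l - 1 / u (l+1)) * (1 + u l - u 0) + c / u n * (1 + u n - u 0) =
      c / u 0 + c * ∑ l ∈ range n, (1 - u l / u (l+1)) := by
  induction n with
  | zero => simp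
  | succ n ih =>
    rw [Finset.sum_range_succ, Finset.sum_range_succ]
    have h1 := hu0 n
    have h2 := hu0 (n+1)
    have e : c * (1 / u n - 1 / u (n+1)) * (1 + u n - u 0) + c / u (n+1) * (1 + u (n+1) - u 0) -
        c / u n * (1 + u n - u 0) = c * (1 - u n / u (n+1)) := by
      field_simp
      ring
    linear_combination ih + e

/-- the optimal revenue under the hard distribution -/
theorem OPT_ge (hδ : 0 < δ) (hu0 : ∀ j, 0 < u j) (hu : ∀ j, u j ≤ u (j+1)) (hu1 : ∀ j, u j < 1)
    (hp : ∀ j, (1 - u j) * p j = 1) (hc : 0 ≤ c) (hc1 : c / u 0 - c = 1) (hQ : n + 1 ∣ Q) :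
    c / u 0 + c * ∑ l ∈ range n, (1 - u l / u (l+1)) ≤
      (hardDist k' Q u p δ c n hδ hu0 hu hu1 hp hc hc1 hQ).OPT := by
  have : Nonempty (Fin k') := ⟨⟨0, Nat.pos_of_ne_zero (NeZero.ne k')⟩⟩
  refine le_trans ?_ (le_OPT _ (goodMech_valid (k' := k') (Q := Q) (p := p) (δ := δ) (n := n)))
  unfold ValDist.revenue
  rw [finsupp_sum_mul]
  have e2 : (hardDist k' Q u p δ c n hδ hu0 hu hu1 hp hc hc1 hQ).w = hw k' Q u p δ c n := rfl
  rw [e2, hw_sum]
  refine le_trans ?_ (Ex_mono hu0 hu hu1 hc n (goodMech_pay hδ (p_gt_one hu0 hu1 hp)))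
  rw [Ex_eq]
  have h1 : ∀ l ∈ range (n+1), rw' u c n l * ((∑ b : Fin k' → Fin Q with ty n b = l,
      G u (fun j => if j = ty n b then p j else 1) l) / NN (Fin k') Q n) =
      rw' u c n l * (1 + u l - u 0) := by
    intro l hl
    have h2 := card_ty (I := Fin k') hQ (Finset.mem_range.1 hl)
    have h3 : ∑ b : Fin k' → Fin Q with ty n b = l,
        G u (fun j => if j = ty n b then p j else 1) l =
        (1 + u l - u 0) * ∑ b : Fin k' → Fin Q with ty n b = l, (1:ℝ) := by
      rw [Finset.mul_sum]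
      refine Finset.sum_congr rfl fun b hb => ?_
      rw [Finset.mem_filter] at hb
      rw [hb.2, mul_one]
      unfold G
      simp only
      rw [if_pos trivial, hp l]
      have h4 : ∑ j ∈ range l, (u (j+1) - u j) * (if j = l then p j else 1) = u l - u 0 := by
        rw [← Finset.sum_range_sub]
        refine Finset.sum_congr rfl fun j hj => ?_
        rw [Finset.mem_range] at hj
        rw [if_neg (by omega), mul_one]
      rw [h4]
      ring
    rw [h3, h2, mul_div_assoc, div_self (NN_pos n).ne', mul_one]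
  rw [Finset.sum_congr rfl h1, sum_rw, sum_ratio u (fun j => (hu0 j).ne')]

end

end Pool.Agent.Helper1x.LA
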