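import Mathlib
import Pool.Agent.Helper1x.LA.Bounds

/-!
# The upper bound `e / (1 + e)`
-/

set_option autoImplicit false

namespace Pool.Agent.Helper1x.LA

open Finset Function Filter

/-- the levels -/
noncomputable def uu (n j : ℕ) : ℝ := Real.exp (-1 + (min j n : ℕ) / (n + 1))

lemma uu_pos (n j : ℕ) : 0 < uu n j := Real.exp_pos _

lemma uu_mono (n j : ℕ) : uu n j ≤ uu n (j+1) := by
  unfold uu
  refine Real.exp_le_exp.2 ?_
  have h : ((min j n : ℕ) : ℝ) ≤ ((min (j+1) n : ℕ) : ℝ) := by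
    have : min j n ≤ min (j+1) n := by omega
    exact_mod_cast this
  have := div_le_div_of_nonneg_right h (show (0:ℝ) ≤ n + 1 by positivity)
  linarith

lemma uu_lt_one (n j : ℕ) : uu n j < 1 := by
  unfold uu
  rw [Real.exp_lt_one_iff]
  have h : ((min j n : ℕ) : ℝ) ≤ n := by
    have : min j n ≤ n := by omega
    exact_mod_cast this
  have : ((min j n : ℕ) : ℝ) / (n + 1) < 1 := by
    rw [div_lt_one (by positivity)]
    linarith
  linarith

lemma uu_zero (n : ℕ) : uu n 0 = Real.exp (-1) := by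
  unfold uu; simp

lemma uu_ratio {n l : ℕ} (hl : l < n) : uu n l / uu n (l+1) = Real.exp (-(1 / (n+1))) := by
  unfold uu
  rw [← Real.exp_sub]
  congr 1
  rw [Nat.min_eq_left hl.le, Nat.min_eq_left hl]
  push_cast
  field_simp
  ring

/-- the constant `1 / (e - 1)` -/
noncomputable def cc : ℝ := 1 / (Real.exp 1 - 1)

lemma exp_one_gt : (2:ℝ) < Real.exp 1 := by
  have := Real.exp_one_gt_d9
  linarith

lemma cc_pos : 0 < cc := by
  unfold cc
  have := exp_one_gt
  have : 0 < Real.exp 1 - 1 := by linarith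
  positivity

lemma cc_le_one : cc ≤ 1 := by
  unfold cc
  have := exp_one_gt
  rw [div_le_one (by linarith)]
  linarith

lemma cc_eq (n : ℕ) : cc / uu n 0 - cc = 1 := by
  rw [uu_zero, Real.exp_neg]
  unfold cc
  have := exp_one_gt
  have h : Real.exp 1 - 1 ≠ 0 := by linarith
  field_simp

lemma sum_uu (n : ℕ) : 1 - 2 / ((n:ℝ) + 2) ≤ ∑ l ∈ range n, (1 - uu n l / uu n (l+1)) := by
  have h1 : ∀ l ∈ range n, 1 / ((n:ℝ) + 2) ≤ 1 - uu n l / uu n (l+1) := by
    intro l hl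
    rw [uu_ratio (Finset.mem_range.1 hl), Real.exp_neg]
    have h2 : 1 + 1 / ((n:ℝ)+1) ≤ Real.exp (1 / ((n:ℝ)+1)) := by
      have := Real.add_one_le_exp (1 / ((n:ℝ)+1))
      linarith
    have h3 : (Real.exp (1 / ((n:ℝ)+1)))⁻¹ ≤ (1 + 1 / ((n:ℝ)+1))⁻¹ :=
      inv_anti₀ (by positivity) h2
    have h4 : (1 + 1 / ((n:ℝ)+1))⁻¹ = 1 - 1 / ((n:ℝ)+2) := by
      have h5 : (n:ℝ) + 1 ≠ 0 := by positivity
      have h6 : (n:ℝ) + 2 ≠ 0 := by positivity
      rw [inv_eq_one_div, div_eq_iff (by positivity)]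
      field_simp
      ring
    rw [h4] at h3
    linarith
  have h2 := Finset.sum_le_sum h1
  rw [Finset.sum_const, Finset.card_range, nsmul_eq_mul] at h2
  refine le_trans (le_of_eq ?_) h2
  have h6 : (n:ℝ) + 2 ≠ 0 := by positivity
  field_simp
  ring

lemma ratio_eq : Real.exp 1 / (1 + Real.exp 1) * (1 + 2 * cc) = 1 + cc := by
  unfold cc
  have := exp_one_gt
  have h : Real.exp 1 - 1 ≠ 0 := by linarith
  have h2 : 1 + Real.exp 1 ≠ 0 := by linarith
  field_simp
  ring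

/-- For every `k ≥ 2` and `ε > 0` there is a distribution of the values of `k + 1` bidders for which
the revenue of every `k`-lookahead mechanism is at most `e / (1 + e) + ε` times the optimal one. -/
theorem exists_hard (k : ℕ) (hk : 2 ≤ k) (ε : ℝ) (hε : 0 < ε) :
    ∃ D : ValDist (k+1), 0 < D.OPT ∧ ∀ A : Family (k+1), IsLookahead k D A →
      lookRevenue k D A ≤ (Real.exp 1 / (1 + Real.exp 1) + ε) * D.OPT := by
  obtain ⟨k', rfl⟩ : ∃ k', k = k' + 1 := ⟨k - 1, by omega⟩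
  have hk' : NeZero k' := ⟨by omega⟩
  -- the number of levels
  obtain ⟨n, hn⟩ := exists_nat_ge (4 * (1 + ε) / ε)
  -- the number of shares
  obtain ⟨q, hq⟩ := exists_nat_ge (4 * k' * (n+1) / ε + 1)
  have hq0 : 0 < q := by
    have h1 : (0:ℝ) ≤ 4 * k' * (n+1) / ε := by positivity
    have h2 : (0:ℝ) < q := by linarith
    exact_mod_cast h2
  set Q : ℕ := (n+1) * q with hQdef
  have hQ : NeZero Q := ⟨by rw [hQdef]; positivity⟩
  have hdvd : n + 1 ∣ Q := Dvd.intro _ rfl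
  set η : ℝ := k' * ((n+1)^2 / Q) with hη
  have hη0 : 0 ≤ η := by positivity
  have hη1 : η ≤ ε / 4 := by
    rw [hη, hQdef]
    push_cast
    have hqr : (0:ℝ) < q := by exact_mod_cast hq0
    have e1 : (k':ℝ) * (((n:ℝ)+1)^2 / (((n:ℝ)+1) * q)) = k' * (n+1) / q := by
      field_simp
    rw [e1, div_le_iff₀ hqr]
    have h1 : 4 * k' * (n+1) / ε ≤ q := by linarith
    rw [div_le_iff₀ hε] at h1
    linarith
  set δ : ℝ := ε / (4 * (Q + 1) * (1 + η)) with hδdef
  have hδ : 0 < δ := by positivity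
  have hδ1 : δ * (Q + 1) * (1 + η) = ε / 4 := by
    rw [hδdef]
    field_simp
  set p : ℕ → ℝ := fun j => 1 / (1 - uu n j) with hp
  have hp1 : ∀ j, (1 - uu n j) * p j = 1 := by
    intro j
    have := uu_lt_one n j
    have h : 1 - uu n j ≠ 0 := by linarith
    rw [hp]
    field_simp
  set D := hardDist k' Q (uu n) p δ cc n hδ (uu_pos n) (uu_mono n) (uu_lt_one n) hp1 cc_pos.le
    (cc_eq n) hdvd with hD
  have hO := OPT_ge (k' := k') (Q := Q) (n := n) hδ (uu_pos n) (uu_mono n) (uu_lt_one n) hp1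
    cc_pos.le (cc_eq n) hdvd
  rw [← hD] at hO
  have hs := sum_uu n
  have hc := cc_pos
  have hc1 := cc_le_one
  have h1 : 1 + 2 * cc - 2 * cc / ((n:ℝ) + 2) ≤ D.OPT := by
    have h2 := mul_le_mul_of_nonneg_left hs hc.le
    have h3 := cc_eq n
    have e : cc * (1 - 2 / ((n:ℝ) + 2)) = cc - 2 * cc / ((n:ℝ) + 2) := by ring
    rw [e] at h2
    linarith
  have h2 : 2 * cc / ((n:ℝ) + 2) * (1 + ε) ≤ ε / 2 := by
    rw [div_mul_eq_mul_div, div_le_iff₀ (by positivity)]
    rw [div_le_iff₀ hε] at hn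
    nlinarith
  have hOPT : 1 < D.OPT := by
    have h3 : 2 * cc / ((n:ℝ) + 2) ≤ cc := by
      rw [div_le_iff₀ (by positivity)]
      have : (0:ℝ) ≤ n := Nat.cast_nonneg n
      nlinarith
    linarith
  refine ⟨D, by linarith, fun A hA => ?_⟩
  have h3 := look_le (k' := k') (Q := Q) (n := n) hδ (uu_pos n) (uu_mono n) (uu_lt_one n) hp1
    cc_pos.le (cc_eq n) hdvd A hA
  rw [← hD, ← hη, hδ1] at h3
  have hr0 : 0 < Real.exp 1 / (1 + Real.exp 1) := by positivity
  have hr1 : Real.exp 1 / (1 + Real.exp 1) ≤ 1 := by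
    rw [div_le_one (by positivity)]
    linarith
  have h4 : (Real.exp 1 / (1 + Real.exp 1) + ε) * (1 + 2 * cc - 2 * cc / ((n:ℝ) + 2)) ≤
      (Real.exp 1 / (1 + Real.exp 1) + ε) * D.OPT :=
    mul_le_mul_of_nonneg_left h1 (by positivity)
  refine le_trans ?_ h4
  have h5 := ratio_eq
  have h6 : (Real.exp 1 / (1 + Real.exp 1) + ε) * (2 * cc / ((n:ℝ) + 2)) ≤
      (1 + ε) * (2 * cc / ((n:ℝ) + 2)) :=
    mul_le_mul_of_nonneg_right (by linarith) (by positivity)
  have h7 : ε ≤ ε * (1 + 2 * cc) := by nlinarith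
  nlinarith [h3, h5, h6, h7, h2, hη1]

theorem ratios_nonempty (k : ℕ) : (ratios k).Nonempty := by
  obtain ⟨D, hD, _⟩ := exists_hard 2 le_rfl 1 one_pos
  obtain ⟨A, hA⟩ := exists_lookahead k D
  exact ⟨_, 3, D, A, hA, hD, rfl⟩

theorem rho_le (k : ℕ) (hk : 2 ≤ k) : rho k ≤ Real.exp 1 / (1 + Real.exp 1) := by
  refine le_of_forall_pos_le_add fun ε hε => ?_
  obtain ⟨D, hD, hD2⟩ := exists_hard k hk ε hε
  obtain ⟨A, hA⟩ := exists_lookahead k D
  have h1 : rho k ≤ lookRevenue k D A / D.OPT :=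
    csInf_le ⟨0, fun x hx => ratios_nonneg k x hx⟩ ⟨k+1, D, A, hA, hD, rfl⟩
  refine h1.trans ?_
  rw [div_le_iff₀ hD]
  exact hD2 A hA

theorem not_tendsto : ¬ Tendsto rho atTop (nhds 1) := by
  intro h
  have hr1 : Real.exp 1 / (1 + Real.exp 1) < 1 := by
    rw [div_lt_one (by positivity)]
    linarith
  have h2 : (1:ℝ) ≤ Real.exp 1 / (1 + Real.exp 1) := by
    refine le_of_tendsto h ?_
    filter_upwards [eventually_ge_atTop 2] with k hk
    exact rho_le k hk
  linarith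

end Pool.Agent.Helper1x.LA
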